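import Mathlib
import Pool.Agent.H774R3.ScM

set_option autoImplicit false
open Metric Module Set Topology Filter

namespace Pool.Agent.V11201.FL

/-- three punctured three-spaces -/
abbrev QQ : Type := {q : Fin 3 → ℂ × ℝ // ∀ i, q i ≠ 0}

theorem sc_R3 : SimplyConnectedSpace {p : ℂ × ℝ // p ≠ 0} := by
  have h1 : SimplyConnectedSpace (sphere (0 : EuclideanSpace ℝ (Fin 3)) 1) :=
    Pool.Agent.Helper206.BoxS.Sph.simplyConnected_sphere (by simp)
  have h2 := Pool.Agent.H774R3.sc_ioi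
  have h3 := Pool.Agent.H774R3.sc_prod (sphere (0 : EuclideanSpace ℝ (Fin 3)) 1) (Set.Ioi (0 : ℝ))
  have h4 : SimplyConnectedSpace ({0}ᶜ : Set (EuclideanSpace ℝ (Fin 3))) :=
    (homeomorphUnitSphereProd (EuclideanSpace ℝ (Fin 3))).toHomotopyEquiv.simplyConnectedSpace
  have hfr : finrank ℝ (ℂ × ℝ) = finrank ℝ (EuclideanSpace ℝ (Fin 3)) := by
    simp [Complex.finrank_real_complex]
  let e : (ℂ × ℝ) ≃L[ℝ] (EuclideanSpace ℝ (Fin 3)) := ContinuousLinearEquiv.ofFinrankEq hfr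
  let e' : {z : ℂ × ℝ // z ≠ 0} ≃ₜ ({0}ᶜ : Set (EuclideanSpace ℝ (Fin 3))) :=
    e.toHomeomorph.subtype (fun z => by
      simp)
  exact e'.toHomotopyEquiv.simplyConnectedSpace

theorem sc_QQ : SimplyConnectedSpace QQ := by
  have h1 := sc_R3
  have h2 := Pool.Agent.H774R3.sc_pi (fun _ : Fin 3 => {z : ℂ × ℝ // z ≠ 0})
  let e : QQ ≃ₜ (Fin 3 → {z : ℂ × ℝ // z ≠ 0}) :=
    { toFun := fun x => fun i => ⟨x.1 i, x.2 i⟩
      invFun := fun x => ⟨fun i => (x i).1, fun i => (x i).2⟩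
      left_inv := fun x => rfl
      right_inv := fun x => rfl
      continuous_toFun := by
        refine continuous_pi fun i => ?_
        exact Continuous.subtype_mk ((continuous_apply i).comp continuous_subtype_val) _
      continuous_invFun := by
        refine Continuous.subtype_mk ?_ _
        refine continuous_pi fun i => ?_
        exact continuous_subtype_val.comp (continuous_apply i) }
  exact e.toHomotopyEquiv.simplyConnectedSpace

instance : Nonempty QQ := ⟨⟨fun _ => (1, 0), fun _ => by simp⟩⟩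

theorem finrank_QQ : finrank ℝ (Fin 3 → ℂ × ℝ) = finrank ℝ (EuclideanSpace ℝ (Fin 9)) := by
  rw [Module.finrank_pi_fintype]
  simp [Complex.finrank_real_complex]

theorem open_QQ : IsOpen {q : Fin 3 → ℂ × ℝ | ∀ i, q i ≠ 0} := by
  have : {q : Fin 3 → ℂ × ℝ | ∀ i, q i ≠ 0} = ⋂ i, {q : Fin 3 → ℂ × ℝ | q i ≠ 0} := by
    ext q; simp
  rw [this]
  exact isOpen_iInter_of_finite fun i => isOpen_ne.preimage (continuous_apply i)

theorem emb_QQ : ∃ f : QQ → EuclideanSpace ℝ (Fin 9), IsOpenEmbedding f := by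
  let e : (Fin 3 → ℂ × ℝ) ≃L[ℝ] (EuclideanSpace ℝ (Fin 9)) :=
    ContinuousLinearEquiv.ofFinrankEq finrank_QQ
  exact ⟨fun q => e q.1, e.toHomeomorph.isOpenEmbedding.comp open_QQ.isOpenEmbedding_subtypeVal⟩

theorem ch_QQ : Nonempty (ChartedSpace (EuclideanSpace ℝ (Fin 9)) QQ) := by
  obtain ⟨f, hf⟩ := emb_QQ
  exact ⟨hf.singletonChartedSpace⟩

end Pool.Agent.V11201.FL
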