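import Mathlib

set_option autoImplicit false
open Set Topology Filter

namespace Pool.Agent.V11201.FL

/-- the Pauli operator -/
noncomputable def sg (c : ℂ × ℝ) (z : ℂ × ℂ) : ℂ × ℂ :=
  (c.2 * z.1 + c.1 * z.2, (starRingEnd ℂ) c.1 * z.1 - c.2 * z.2)

/-- unit vectors -/
def IsU (c : ℂ × ℝ) : Prop := Complex.normSq c.1 + c.2 ^ 2 = 1

theorem sg_cont : Continuous (fun x : (ℂ × ℝ) × (ℂ × ℂ) => sg x.1 x.2) := by
  unfold sg
  have h1 : Continuous (fun x : (ℂ × ℝ) × (ℂ × ℂ) => ((x.1.2 : ℝ) : ℂ)) :=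
    Complex.continuous_ofReal.comp (continuous_snd.comp continuous_fst)
  have h2 : Continuous (fun x : (ℂ × ℝ) × (ℂ × ℂ) => (starRingEnd ℂ) x.1.1) :=
    Complex.continuous_conj.comp (continuous_fst.comp continuous_fst)
  fun_prop

theorem sg_sub (c d : ℂ × ℝ) (z : ℂ × ℂ) : sg (c - d) z = sg c z - sg d z := by
  unfold sg
  ext <;> simp <;> ring

theorem sg_sg {c : ℂ × ℝ} (hc : IsU c) (z : ℂ × ℂ) : sg c (sg c z) = z := by
  have h1 : ((Complex.normSq c.1 : ℝ) : ℂ) + (c.2 : ℂ) ^ 2 = 1 := by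
    have := congrArg (fun r : ℝ => (r : ℂ)) hc
    push_cast at this
    exact this
  have h2 : c.1 * (starRingEnd ℂ) c.1 = ((Complex.normSq c.1 : ℝ) : ℂ) := Complex.mul_conj _
  unfold sg
  ext1
  · simp only
    linear_combination z.1 * h1 + z.1 * h2
  · simp only
    linear_combination z.2 * h1 + z.2 * h2

theorem sg_smul (c : ℂ × ℝ) (a : ℂ) (z : ℂ × ℂ) : sg c (a • z) = a • sg c z := by
  unfold sg
  ext1 <;> simp only [Prod.smul_fst, Prod.smul_snd, smul_eq_mul] <;> ring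

theorem sg_norm (c : ℂ × ℝ) (z : ℂ × ℂ) : ‖sg c z‖ ≤ 2 * ‖c‖ * ‖z‖ := by
  have h1 : ‖c.1‖ ≤ ‖c‖ := norm_fst_le c
  have h2 : ‖c.2‖ ≤ ‖c‖ := norm_snd_le c
  have h3 : ‖z.1‖ ≤ ‖z‖ := norm_fst_le z
  have h4 : ‖z.2‖ ≤ ‖z‖ := norm_snd_le z
  have h5 : ‖((c.2 : ℝ) : ℂ)‖ = ‖c.2‖ := Complex.norm_real _
  unfold sg
  rw [Prod.norm_mk]
  apply max_le
  · refine (norm_add_le _ _).trans ?_
    rw [norm_mul, norm_mul, h5]
    have a1 := mul_le_mul h2 h3 (norm_nonneg _) (norm_nonneg _)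
    have a2 := mul_le_mul h1 h4 (norm_nonneg _) (norm_nonneg _)
    linarith
  · refine (norm_sub_le _ _).trans ?_
    rw [norm_mul, norm_mul, h5, RCLike.norm_conj]
    have a1 := mul_le_mul h1 h3 (norm_nonneg _) (norm_nonneg _)
    have a2 := mul_le_mul h2 h4 (norm_nonneg _) (norm_nonneg _)
    linarith

/-- the projection to the line of `c` -/
noncomputable def Pr (c : ℂ × ℝ) (z : ℂ × ℂ) : ℂ × ℂ := (1 / 2 : ℂ) • (z + sg c z)

theorem Pr_cont : Continuous (fun x : (ℂ × ℝ) × (ℂ × ℂ) => Pr x.1 x.2) := by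
  unfold Pr
  exact (continuous_snd.add sg_cont).const_smul (1 / 2 : ℂ)

theorem Pr_fix {c : ℂ × ℝ} {z : ℂ × ℂ} (h : sg c z = z) : Pr c z = z := by
  unfold Pr
  rw [h, ← two_smul ℂ z, smul_smul]
  norm_num

theorem sg_add (c : ℂ × ℝ) (z w : ℂ × ℂ) : sg c (z + w) = sg c z + sg c w := by
  unfold sg
  ext1 <;> simp only [Prod.fst_add, Prod.snd_add] <;> ring

theorem sg_Pr {c : ℂ × ℝ} (hc : IsU c) (z : ℂ × ℂ) : sg c (Pr c z) = Pr c z := by
  unfold Pr
  rw [sg_smul, sg_add, sg_sg hc, add_comm]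

theorem Pr_ne {c d : ℂ × ℝ} {z : ℂ × ℂ} (hz : z ≠ 0) (h : sg d z = z) (hcd : ‖c - d‖ < 1) :
    Pr c z ≠ 0 := by
  intro h0
  have h1 : sg c z = -z := by
    unfold Pr at h0
    rcases smul_eq_zero.1 h0 with h2 | h2
    · norm_num at h2
    · rw [add_comm] at h2
      exact eq_neg_of_add_eq_zero_left h2
  have h2 := sg_norm (c - d) z
  rw [sg_sub, h, h1] at h2
  have h3 : ‖-z - z‖ = 2 * ‖z‖ := by
    rw [show -z - z = (-2 : ℝ) • z by rw [neg_smul, two_smul]; abel, norm_smul]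
    norm_num
  rw [h3] at h2
  have h4 : 0 < ‖z‖ := norm_pos_iff.2 hz
  nlinarith

/-- radial retraction -/
noncomputable def rt {E : Type*} [NormedAddCommGroup E] [NormedSpace ℝ E] (r : ℝ) (x : E) : E :=
  (r / max r ‖x‖) • x

section
variable {E : Type*} [NormedAddCommGroup E] [NormedSpace ℝ E]

theorem rt_zero (x : E) : rt 0 x = 0 := by simp [rt]

theorem rt_cont {r : ℝ} (hr : 0 ≤ r) : Continuous (rt r : E → E) := by
  rcases hr.eq_or_lt with rfl | h
  · have : (rt 0 : E → E) = fun _ => 0 := funext rt_zero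
    rw [this]
    exact continuous_const
  · unfold rt
    apply Continuous.smul _ continuous_id
    exact continuous_const.div (continuous_const.max continuous_norm)
      (fun x => (lt_max_of_lt_left h).ne')

theorem rt_of_le {r : ℝ} {x : E} (h : ‖x‖ ≤ r) : rt r x = x := by
  unfold rt
  rw [max_eq_left h]
  rcases eq_or_ne r 0 with rfl | hr
  · have : x = 0 := norm_le_zero_iff.1 h
    simp [this]
  · rw [div_self hr, one_smul]

theorem rt_norm {r : ℝ} (hr : 0 ≤ r) (x : E) : ‖rt r x‖ ≤ r := by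
  unfold rt
  rw [norm_smul, norm_div, Real.norm_of_nonneg hr, Real.norm_of_nonneg (le_max_of_le_left hr)]
  rcases eq_or_ne (max r ‖x‖) 0 with h0 | h0
  · rw [h0]; simp [hr]
  · have h1 : 0 < max r ‖x‖ := lt_of_le_of_ne (le_max_of_le_left hr) h0.symm
    rw [div_mul_eq_mul_div, div_le_iff₀ h1]
    exact mul_le_mul_of_nonneg_left (le_max_right _ _) hr

theorem rt_dist {r δ : ℝ} (hr : 0 ≤ r) (hδ : 0 ≤ δ) {x : E} (hx : ‖x‖ ≤ r + δ) :
    dist (rt r x) x ≤ δ := by
  rcases le_total ‖x‖ r with h | h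
  · rw [rt_of_le h, dist_self]
    exact hδ
  · rw [dist_comm, dist_eq_norm]
    unfold rt
    rw [max_eq_right h]
    rcases eq_or_ne ‖x‖ 0 with h0 | h0
    · have : x = 0 := norm_eq_zero.1 h0
      simp [this, hδ]
    · have hpos : 0 < ‖x‖ := lt_of_le_of_ne (norm_nonneg _) h0.symm
      have e : x - (r / ‖x‖) • x = (1 - r / ‖x‖) • x := by rw [sub_smul, one_smul]
      rw [e, norm_smul, Real.norm_of_nonneg (by
        rw [sub_nonneg, div_le_one hpos]; exact h)]
      have : (1 - r / ‖x‖) * ‖x‖ = ‖x‖ - r := by field_simp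
      rw [this]
      linarith

/-- Lifting of maps to the sphere through the Hopf fibration. -/
theorem exists_lift [ProperSpace E] {u : E → ℂ × ℝ} (hu : Continuous u) (hU : ∀ x, IsU (u x)) :
    ∃ g : E → ℂ × ℂ, Continuous g ∧ ∀ x, g x ≠ 0 ∧ sg (u x) (g x) = g x := by
  classical
  -- the step sizes
  have hstep : ∀ M : ℕ, ∃ δ : ℝ, 0 < δ ∧ ∀ r : ℝ, 0 ≤ r → r ≤ M → ∀ x : E, ‖x‖ ≤ r + δ →
      ‖u x - u (rt r x)‖ < 1 := by
    intro M
    have huc := (isCompact_closedBall (0 : E) (M + 1)).uniformContinuousOn_of_continuous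
      hu.continuousOn
    rw [Metric.uniformContinuousOn_iff] at huc
    obtain ⟨δ, hδ, h⟩ := huc 1 one_pos
    refine ⟨min (δ / 2) 1, lt_min (half_pos hδ) one_pos, fun r hr hrM x hx => ?_⟩
    have h1 : x ∈ Metric.closedBall (0 : E) (M + 1) := by
      rw [mem_closedBall_zero_iff]
      have := min_le_right (δ / 2) (1 : ℝ)
      linarith
    have h2 : rt r x ∈ Metric.closedBall (0 : E) (M + 1) := by
      rw [mem_closedBall_zero_iff]
      have := rt_norm hr x
      linarith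
    have h3 := rt_dist hr (le_of_lt (lt_min (half_pos hδ) one_pos)) hx
    have h4 : dist x (rt r x) < δ := by
      rw [dist_comm]
      have := min_le_left (δ / 2) (1 : ℝ)
      linarith
    have := h x h1 _ h2 h4
    rwa [dist_eq_norm] at this
  choose δ hδ hδ' using hstep
  -- the radii
  let r : ℕ → ℝ := fun k => Nat.rec 0 (fun _ s => s + δ ⌈s⌉₊) k
  have hr0 : r 0 = 0 := rfl
  have hrs : ∀ k, r (k + 1) = r k + δ ⌈r k⌉₊ := fun k => rfl
  have hrmono : Monotone r := monotone_nat_of_le_succ (fun k => by rw [hrs]; linarith [hδ ⌈r k⌉₊])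
  have hrnn : ∀ k, 0 ≤ r k := fun k => by rw [← hr0]; exact hrmono (Nat.zero_le _)
  have hrinf : ∀ M : ℝ, ∃ k, M < r k := by
    intro M
    by_contra hcon
    push Not at hcon
    obtain ⟨m, hm, hmin⟩ := Finset.exists_min_image (Finset.range (⌈M⌉₊ + 1)) δ ⟨0, by simp⟩
    have hle : ∀ k, δ m ≤ δ ⌈r k⌉₊ := by
      intro k
      apply hmin
      rw [Finset.mem_range]
      exact Nat.lt_succ_of_le (Nat.ceil_mono (hcon k))
    have hlin : ∀ k : ℕ, k * δ m ≤ r k := by
      intro k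
      induction k with
      | zero => simp [hr0]
      | succ k ih =>
        rw [hrs]
        push_cast
        linarith [hle k]
    obtain ⟨k, hk⟩ := exists_nat_gt (M / δ m)
    rw [div_lt_iff₀ (hδ m)] at hk
    linarith [hlin k, hcon k]
  -- a vector of the first line
  obtain ⟨z₀, hz₀, hz₀'⟩ : ∃ z₀ : ℂ × ℂ, z₀ ≠ 0 ∧ sg (u 0) z₀ = z₀ := by
    by_contra hcon
    push Not at hcon
    have h1 : ∀ z, Pr (u 0) z = 0 := by
      intro z
      by_contra hne
      exact hcon _ hne (sg_Pr (hU 0) z)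
    have h2 := h1 (1, 0)
    have h3 := h1 (0, 1)
    unfold Pr sg at h2 h3
    simp only [Prod.smul_mk, Prod.mk_add_mk, Prod.mk_eq_zero, smul_eq_mul, mul_one, mul_zero,
      add_zero, zero_add, sub_zero, mul_eq_zero, zero_sub] at h2 h3
    have h4 : (1 : ℂ) + ((u 0).2 : ℂ) = 0 := by
      rcases h2.1 with h | h
      · norm_num at h
      · exact h
    have h5 : (1 : ℂ) + -((u 0).2 : ℂ) = 0 := by
      rcases h3.2 with h | h
      · norm_num at h
      · exact h
    have h6 : (2 : ℂ) = 0 := by linear_combination h4 + h5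
    norm_num at h6
  let g : ℕ → E → ℂ × ℂ := fun k => Nat.rec (fun _ => z₀) (fun j s x => Pr (u x) (s (rt (r j) x))) k
  have hg0 : ∀ x, g 0 x = z₀ := fun x => rfl
  have hgs : ∀ k x, g (k + 1) x = Pr (u x) (g k (rt (r k) x)) := fun k x => rfl
  have hgc : ∀ k, Continuous (g k) := by
    intro k
    induction k with
    | zero => exact continuous_const
    | succ k ih =>
      have : g (k + 1) = fun x => Pr (u x) (g k (rt (r k) x)) := funext (hgs k)
      rw [this]
      exact Pr_cont.comp (hu.prodMk (ih.comp (rt_cont (hrnn k))))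
  have hgl : ∀ k x, ‖x‖ ≤ r k → g k x ≠ 0 ∧ sg (u x) (g k x) = g k x := by
    intro k
    induction k with
    | zero =>
      intro x hx
      rw [hr0] at hx
      have : x = 0 := norm_le_zero_iff.1 hx
      subst this
      exact ⟨hz₀, hz₀'⟩
    | succ k ih =>
      intro x hx
      rw [hgs]
      obtain ⟨h1, h2⟩ := ih (rt (r k) x) (rt_norm (hrnn k) x)
      refine ⟨Pr_ne h1 h2 ?_, sg_Pr (hU x) _⟩
      apply hδ' ⌈r k⌉₊ (r k) (hrnn k) (Nat.le_ceil _) x
      rwa [hrs] at hx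
  have hgeq : ∀ k x, ‖x‖ ≤ r k → g (k + 1) x = g k x := by
    intro k x hx
    rw [hgs, rt_of_le hx, Pr_fix (hgl k x hx).2]
  have hgeq' : ∀ k j x, ‖x‖ ≤ r k → g (k + j) x = g k x := by
    intro k j x hx
    induction j with
    | zero => rfl
    | succ j ih =>
      rw [← add_assoc, hgeq (k + j) x (hx.trans (hrmono (Nat.le_add_right _ _))), ih]
  choose κ hκ using hrinf
  refine ⟨fun x => g (κ ‖x‖) x, ?_, fun x => hgl _ _ (hκ _).le⟩
  rw [continuous_iff_continuousAt]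
  intro x
  have h1 : ∀ᶠ y in 𝓝 x, ‖y‖ < r (κ ‖x‖) :=
    (continuous_norm.continuousAt.eventually_lt continuousAt_const (hκ ‖x‖))
  have h2 : ContinuousAt (g (κ ‖x‖)) x := (hgc _).continuousAt
  refine h2.congr ?_
  filter_upwards [h1] with y hy
  have h3 := hgeq' (κ ‖x‖) (κ ‖y‖) y hy.le
  have h4 := hgeq' (κ ‖y‖) (κ ‖x‖) y (hκ _).le
  rw [← h3, add_comm, h4]

end

/-- the proportionality of two vectors of the same line -/
theorem prop_of_line {c : ℂ × ℝ} {z w : ℂ × ℂ} (hz : sg c z = z) (hw : sg c w = w) :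
    z.1 * w.2 = z.2 * w.1 := by
  unfold sg at hz hw
  have h1 := congrArg Prod.fst hz
  have h2 := congrArg Prod.snd hz
  have h3 := congrArg Prod.fst hw
  have h4 := congrArg Prod.snd hw
  simp only at h1 h2 h3 h4
  have h5 : (2 : ℂ) * (z.1 * w.2 - z.2 * w.1) = 0 := by
    linear_combination w.1 * h2 - w.2 * h1 + z.2 * h3 - z.1 * h4
  have h6 : z.1 * w.2 - z.2 * w.1 = 0 := by
    rcases mul_eq_zero.1 h5 with h | h
    · norm_num at h
    · exact h
  linear_combination h6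

end Pool.Agent.V11201.FL
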