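import Pool.Agent.V11201.FL.Slope
import Pool.Agent.V11201.FL.Hopf

set_option autoImplicit false
open Set Topology Filter

namespace Pool.Agent.V11201.FL

/-- the exponential `exp (2 π i u)` -/
noncomputable def ex (u : ℝ) : ℂ := Complex.exp (2 * Real.pi * u * Complex.I)

theorem ex_cont : Continuous ex := by
  unfold ex
  fun_prop

theorem ex_add (u v : ℝ) : ex (u + v) = ex u * ex v := by
  unfold ex
  rw [← Complex.exp_add]
  congr 1
  push_cast
  ring

theorem ex_int (n : ℤ) : ex n = 1 := by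
  unfold ex
  rw [Complex.exp_eq_one_iff]
  exact ⟨n, by push_cast; ring⟩

theorem ex_zero : ex 0 = 1 := by simpa using ex_int 0

theorem ex_ne (u : ℝ) : ex u ≠ 0 := Complex.exp_ne_zero _

theorem ex_norm (u : ℝ) : ‖ex u‖ = 1 := by
  unfold ex
  have : (2 * Real.pi * u * Complex.I : ℂ) = ((2 * Real.pi * u : ℝ) : ℂ) * Complex.I := by
    push_cast; ring
  rw [this, Complex.norm_exp_ofReal_mul_I]

/-- the pair of theta functions on the strip -/
noncomputable def Gs (u s : ℝ) : ℂ × ℂ :=
  ex (s * u) • (((1 - s : ℝ) : ℂ) + (s : ℂ) * ex (-u), ((s * (1 - s) : ℝ) : ℂ))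

/-- the pair of theta functions -/
noncomputable def th (u v : ℝ) : ℂ × ℂ := ex (-(u * v)) • Gs u (Int.fract v)

theorem th_cont : Continuous (fun p : ℝ × ℝ => th p.1 p.2) := by
  unfold th
  have h1 : Continuous (fun p : ℝ × ℝ => ex (-(p.1 * p.2))) := ex_cont.comp (by fun_prop)
  have h2 : Continuous (fun p : ℝ × ℝ => (fun (q : ℝ × ℝ) (s : ℝ) => Gs q.1 s) p (Int.fract p.2)) := by
    apply ContinuousOn.comp_fract (f := fun (q : ℝ × ℝ) (s : ℝ) => Gs q.1 s) (s := fun p => p.2)
    · apply Continuous.continuousOn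
      unfold Function.uncurry Gs
      simp only
      have a1 : Continuous (fun a : (ℝ × ℝ) × ℝ => ex (a.2 * a.1.1)) := ex_cont.comp (by fun_prop)
      have a2 : Continuous (fun a : (ℝ × ℝ) × ℝ => ex (-a.1.1)) := ex_cont.comp (by fun_prop)
      refine a1.smul (Continuous.prodMk ?_ ?_)
      · exact (Complex.continuous_ofReal.comp (by fun_prop)).add
          ((Complex.continuous_ofReal.comp continuous_snd).mul a2)
      · exact Complex.continuous_ofReal.comp (by fun_prop)
    · exact continuous_snd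
    · intro q
      unfold Gs
      simp only [zero_mul, ex_zero, sub_zero, Complex.ofReal_one, Complex.ofReal_zero, add_zero,
        one_smul, one_mul, sub_self, mul_zero, zero_add, Prod.smul_mk, smul_eq_mul]
      rw [← ex_add, add_neg_cancel, ex_zero]
  exact h1.smul h2

theorem th_u (u v : ℝ) : th (u + 1) v = th u v := by
  unfold th Gs
  rw [smul_smul, smul_smul, ← ex_add, ← ex_add]
  have e1 : -((u + 1) * v) + Int.fract v * (u + 1) =
      (-(u * v) + Int.fract v * u) + ((-⌊v⌋ : ℤ) : ℝ) := by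
    have := Int.self_sub_floor v
    rw [← this]
    push_cast
    ring
  have e2 : ex (-(u + 1)) = ex (-u) := by
    have : -(u + 1) = -u + ((-1 : ℤ) : ℝ) := by push_cast; ring
    rw [this, ex_add, ex_int, mul_one]
  rw [e1, ex_add, ex_int, mul_one, e2]

theorem th_v (u v : ℝ) : th u (v + 1) = ex (-u) • th u v := by
  unfold th
  rw [Int.fract_add_one, smul_smul, ← ex_add]
  congr 2
  ring

theorem th_ne (u v : ℝ) : th u v ≠ 0 := by
  unfold th Gs
  rw [smul_smul]
  apply smul_ne_zero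
  · exact mul_ne_zero (ex_ne _) (ex_ne _)
  · intro h
    rw [Prod.mk_eq_zero] at h
    obtain ⟨h1, h2⟩ := h
    have h3 : Int.fract v * (1 - Int.fract v) = 0 := by exact_mod_cast h2
    have h4 := Int.fract_lt_one v
    have h5 : Int.fract v = 0 := by
      rcases mul_eq_zero.1 h3 with h | h
      · exact h
      · linarith
    rw [h5] at h1
    simp at h1

/-- the Hopf map -/
noncomputable def Hp (z : ℂ × ℂ) : ℂ × ℝ :=
  (2 * (z.1 * (starRingEnd ℂ) z.2), Complex.normSq z.1 - Complex.normSq z.2)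

/-- the length of a vector -/
noncomputable def ln (p : ℂ × ℝ) : ℝ := Real.sqrt (Complex.normSq p.1 + p.2 ^ 2)

/-- normalisation -/
noncomputable def nu (p : ℂ × ℝ) : ℂ × ℝ := ((((ln p)⁻¹ : ℝ) : ℂ) * p.1, (ln p)⁻¹ * p.2)

theorem Hp_cont : Continuous Hp := by
  unfold Hp
  refine Continuous.prodMk ?_ ?_
  · exact continuous_const.mul (continuous_fst.mul (Complex.continuous_conj.comp continuous_snd))
  · exact (Complex.continuous_normSq.comp continuous_fst).sub
      (Complex.continuous_normSq.comp continuous_snd)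

theorem ln_cont : Continuous ln := by
  unfold ln
  exact Real.continuous_sqrt.comp ((Complex.continuous_normSq.comp continuous_fst).add
    (continuous_snd.pow 2))

theorem ln_pos {p : ℂ × ℝ} (hp : p ≠ 0) : 0 < ln p := by
  unfold ln
  apply Real.sqrt_pos.2
  have h1 := Complex.normSq_nonneg p.1
  have h2 := sq_nonneg p.2
  by_contra hcon
  push Not at hcon
  have h3 : Complex.normSq p.1 = 0 := by linarith
  have h4 : p.2 ^ 2 = 0 := by linarith
  apply hp
  ext1
  · exact Complex.normSq_eq_zero.1 h3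
  · simpa using h4

theorem nu_contAt {p : ℂ × ℝ} (hp : p ≠ 0) : ContinuousAt nu p := by
  unfold nu
  have h1 : ContinuousAt (fun p : ℂ × ℝ => (ln p)⁻¹) p :=
    ln_cont.continuousAt.inv₀ (ln_pos hp).ne'
  exact ((Complex.continuous_ofReal.continuousAt.comp h1).mul continuousAt_fst).prodMk
    (h1.mul continuousAt_snd)

theorem nu_unit {p : ℂ × ℝ} (hp : p ≠ 0) : IsU (nu p) := by
  unfold IsU nu
  simp only
  have h1 : ln p ^ 2 = Complex.normSq p.1 + p.2 ^ 2 := by
    unfold ln
    rw [Real.sq_sqrt]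
    exact add_nonneg (Complex.normSq_nonneg _) (sq_nonneg _)
  have h2 := (ln_pos hp).ne'
  rw [map_mul, Complex.normSq_ofReal]
  field_simp
  exact h1.symm

theorem Hp_ln (z : ℂ × ℂ) : ln (Hp z) = Complex.normSq z.1 + Complex.normSq z.2 := by
  unfold ln Hp
  simp only
  rw [map_mul, map_mul, Complex.normSq_conj]
  have h2 : Complex.normSq 2 = 4 := by
    rw [show (2 : ℂ) = ((2 : ℝ) : ℂ) by norm_num, Complex.normSq_ofReal]; norm_num
  rw [h2]
  have : 4 * (Complex.normSq z.1 * Complex.normSq z.2) +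
      (Complex.normSq z.1 - Complex.normSq z.2) ^ 2 =
      (Complex.normSq z.1 + Complex.normSq z.2) ^ 2 := by ring
  rw [this, Real.sqrt_sq]
  exact add_nonneg (Complex.normSq_nonneg _) (Complex.normSq_nonneg _)

theorem nsq_pos {z : ℂ × ℂ} (hz : z ≠ 0) : 0 < Complex.normSq z.1 + Complex.normSq z.2 := by
  have h1 := Complex.normSq_nonneg z.1
  have h2 := Complex.normSq_nonneg z.2
  by_contra hcon
  push Not at hcon
  have h3 : Complex.normSq z.1 = 0 := by linarith
  have h4 : Complex.normSq z.2 = 0 := by linarith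
  apply hz
  ext1
  · exact Complex.normSq_eq_zero.1 h3
  · exact Complex.normSq_eq_zero.1 h4

theorem Hp_ne {z : ℂ × ℂ} (hz : z ≠ 0) : Hp z ≠ 0 := by
  intro h
  have h1 := Hp_ln z
  rw [h] at h1
  have h2 : ln (0 : ℂ × ℝ) = 0 := by simp [ln]
  have := nsq_pos hz
  linarith

theorem Hp_line {z : ℂ × ℂ} (hz : z ≠ 0) : sg (nu (Hp z)) z = z := by
  have h1 := Hp_ln z
  have h2 := nsq_pos hz
  unfold sg nu
  rw [h1]
  set N := Complex.normSq z.1 + Complex.normSq z.2 with hN
  have hNc : ((N : ℝ) : ℂ) ≠ 0 := by exact_mod_cast h2.ne'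
  have e1 : (starRingEnd ℂ) z.1 * z.1 = ((Complex.normSq z.1 : ℝ) : ℂ) := by
    rw [mul_comm]; exact Complex.mul_conj _
  have e2 : (starRingEnd ℂ) z.2 * z.2 = ((Complex.normSq z.2 : ℝ) : ℂ) := by
    rw [mul_comm]; exact Complex.mul_conj _
  have e3 : ((N : ℝ) : ℂ) = ((Complex.normSq z.1 : ℝ) : ℂ) + ((Complex.normSq z.2 : ℝ) : ℂ) := by
    rw [hN]; push_cast; rfl
  unfold Hp
  ext1
  · simp only
    push_cast
    field_simp
    rw [e3]
    linear_combination 2 * z.1 * e2
  · simp only [map_mul, Complex.conj_conj, Complex.conj_ofReal, map_ofNat]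
    push_cast
    field_simp
    rw [e3]
    linear_combination 2 * z.2 * e1

theorem Hp_smul {a : ℂ} (ha : ‖a‖ = 1) (z : ℂ × ℂ) : Hp (a • z) = Hp z := by
  have h1 : a * (starRingEnd ℂ) a = 1 := by
    rw [Complex.mul_conj, Complex.normSq_eq_norm_sq, ha]; norm_num
  have h2 : Complex.normSq a = 1 := by rw [Complex.normSq_eq_norm_sq, ha]; norm_num
  unfold Hp
  simp only [Prod.smul_fst, Prod.smul_snd, smul_eq_mul, map_mul, h2, one_mul]
  ext1
  · simp only
    linear_combination 2 * z.1 * (starRingEnd ℂ) z.2 * h1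
  · rfl

/-- the proportionality factor -/
noncomputable def lam (z w : ℂ × ℂ) : ℂ :=
  ((starRingEnd ℂ) w.1 * z.1 + (starRingEnd ℂ) w.2 * z.2) /
    ((Complex.normSq w.1 + Complex.normSq w.2 : ℝ) : ℂ)

theorem lam_contAt {z w : ℂ × ℂ} (hw : w ≠ 0) :
    ContinuousAt (fun p : (ℂ × ℂ) × (ℂ × ℂ) => lam p.1 p.2) (z, w) := by
  unfold lam
  apply ContinuousAt.div
  · apply Continuous.continuousAt
    have h1 : Continuous (fun p : (ℂ × ℂ) × (ℂ × ℂ) => (starRingEnd ℂ) p.2.1) :=
      Complex.continuous_conj.comp (by fun_prop)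
    have h2 : Continuous (fun p : (ℂ × ℂ) × (ℂ × ℂ) => (starRingEnd ℂ) p.2.2) :=
      Complex.continuous_conj.comp (by fun_prop)
    fun_prop
  · apply Continuous.continuousAt
    apply Complex.continuous_ofReal.comp
    exact (Complex.continuous_normSq.comp (by fun_prop)).add
      (Complex.continuous_normSq.comp (by fun_prop))
  · have := nsq_pos hw
    exact_mod_cast this.ne'

theorem lam_eq {z w : ℂ × ℂ} (hw : w ≠ 0) (h : z.1 * w.2 = z.2 * w.1) : z = lam z w • w := by
  have h2 := nsq_pos hw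
  have hNc : ((Complex.normSq w.1 + Complex.normSq w.2 : ℝ) : ℂ) ≠ 0 := by exact_mod_cast h2.ne'
  have e1 : (starRingEnd ℂ) w.1 * w.1 = ((Complex.normSq w.1 : ℝ) : ℂ) := by
    rw [mul_comm]; exact Complex.mul_conj _
  have e2 : (starRingEnd ℂ) w.2 * w.2 = ((Complex.normSq w.2 : ℝ) : ℂ) := by
    rw [mul_comm]; exact Complex.mul_conj _
  unfold lam
  ext1
  · simp only [Prod.smul_fst, smul_eq_mul]
    rw [div_mul_eq_mul_div, eq_div_iff hNc]
    push_cast
    rw [← e1, ← e2]
    linear_combination (starRingEnd ℂ) w.2 * h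
  · simp only [Prod.smul_snd, smul_eq_mul]
    rw [div_mul_eq_mul_div, eq_div_iff hNc]
    push_cast
    rw [← e1, ← e2]
    linear_combination -(starRingEnd ℂ) w.1 * h

theorem lam_ne {z w : ℂ × ℂ} (hz : z ≠ 0) (hw : w ≠ 0) (h : z.1 * w.2 = z.2 * w.1) :
    lam z w ≠ 0 := by
  intro h0
  apply hz
  rw [lam_eq hw h, h0, zero_smul]

theorem lam_smul {z w : ℂ × ℂ} {u : ℝ} : lam z (ex (-u) • w) = ex u * lam z w := by
  have hn : Complex.normSq (ex (-u)) = 1 := by
    rw [Complex.normSq_eq_norm_sq, ex_norm]; norm_num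
  have hc : (starRingEnd ℂ) (ex (-u)) = ex u := by
    have h1 : ex (-u) * (starRingEnd ℂ) (ex (-u)) = 1 := by
      rw [Complex.mul_conj, hn]; norm_num
    have h2 : ex (-u) * ex u = 1 := by rw [← ex_add, neg_add_cancel, ex_zero]
    exact mul_left_cancel₀ (ex_ne (-u)) (h1.trans h2.symm)
  unfold lam
  simp only [Prod.smul_fst, Prod.smul_snd, smul_eq_mul, map_mul, hn, one_mul, hc]
  ring

/-- the angle of a complex number, in `ℝ/ℤ` -/
noncomputable def ang (z : ℂ) : T1 :=
  (AddCircle.homeomorphCircle (T := 1) one_ne_zero).symm (Circle.exp (Complex.arg z))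

theorem ang_cont {z : ℂ} (hz : z ≠ 0) : ContinuousAt ang z := by
  apply (AddCircle.homeomorphCircle (T := 1) one_ne_zero).symm.continuous.continuousAt.comp
  refine (Topology.IsInducing.continuousAt_iff
    (⟨rfl⟩ : Topology.IsInducing (fun c : Circle => (c : ℂ)))).2 ?_
  have h1 : ContinuousAt (fun w : ℂ => w / ‖w‖) z := by
    apply ContinuousAt.div continuousAt_id
    · exact (Complex.continuous_ofReal.comp continuous_norm).continuousAt
    · simpa using hz
  apply h1.congr
  filter_upwards [isOpen_ne.mem_nhds hz] with w hw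
  have hw' : (‖w‖ : ℂ) ≠ 0 := by simpa using hw
  change w / ‖w‖ = (Circle.exp (Complex.arg w) : ℂ)
  rw [Circle.coe_exp, div_eq_iff hw', mul_comm]
  exact (Complex.norm_mul_exp_arg_mul_I w).symm

theorem coe_exp_arg {w : ℂ} (hw : w ≠ 0) : (Circle.exp (Complex.arg w) : ℂ) = w / ‖w‖ := by
  have hw' : (‖w‖ : ℂ) ≠ 0 := by simpa using hw
  rw [Circle.coe_exp, eq_div_iff hw', mul_comm]
  exact Complex.norm_mul_exp_arg_mul_I w

theorem ang_mul (u : ℝ) {z : ℂ} (hz : z ≠ 0) : ang (ex u * z) = ang z + ((u : ℝ) : T1) := by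
  apply (AddCircle.homeomorphCircle (T := 1) one_ne_zero).injective
  unfold ang
  rw [Homeomorph.apply_symm_apply, AddCircle.homeomorphCircle_apply, AddCircle.toCircle_add,
    ← AddCircle.homeomorphCircle_apply (hT := one_ne_zero), Homeomorph.apply_symm_apply,
    AddCircle.toCircle_apply_mk]
  apply Circle.ext
  rw [Circle.coe_mul, coe_exp_arg hz, coe_exp_arg (mul_ne_zero (ex_ne u) hz), norm_mul, ex_norm,
    one_mul, Circle.coe_exp]
  have : Complex.exp (((2 * Real.pi / 1 * u : ℝ) : ℂ) * Complex.I) = ex u := by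
    unfold ex
    congr 1
    push_cast
    ring
  rw [this]
  ring

end Pool.Agent.V11201.FL
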