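import Pool.Agent.V11201.FL.Abs
import Pool.Agent.V11201.FL.Theta
import Pool.Agent.V11201.FL.Mfd

set_option autoImplicit false
open Set Topology Filter Metric

namespace Pool.Agent.V11201.FL

open Pool.Agent.H289R3.FQ (ee)

/-- the map from five-space to `QQ` -/
noncomputable def tor (y : Fin 5 → ℝ) : QQ :=
  ⟨![Hp (th (y 0) (y 1)), Hp (th (y 2) (y 3)), Hp (th (y 2) (y 4))], by
    intro i
    fin_cases i
    · exact Hp_ne (th_ne _ _)
    · exact Hp_ne (th_ne _ _)
    · exact Hp_ne (th_ne _ _)⟩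

theorem Hpth_cont (a b : Fin 5) : Continuous (fun y : Fin 5 → ℝ => Hp (th (y a) (y b))) := by
  have h1 : Continuous (fun y : Fin 5 → ℝ => (y a, y b)) :=
    (continuous_apply a).prodMk (continuous_apply b)
  have h2 : Continuous (fun y : Fin 5 → ℝ => th (y a) (y b)) :=
    Continuous.comp (g := fun p : ℝ × ℝ => th p.1 p.2) (f := fun y : Fin 5 → ℝ => (y a, y b))
      th_cont h1
  exact Continuous.comp (g := Hp) (f := fun y : Fin 5 → ℝ => th (y a) (y b)) Hp_cont h2

theorem tor_cont : Continuous tor := by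
  unfold tor
  refine Continuous.subtype_mk ?_ _
  refine continuous_pi fun i => ?_
  fin_cases i
  · exact Hpth_cont 0 1
  · exact Hpth_cont 2 3
  · exact Hpth_cont 2 4

theorem Hp_th_v (u v : ℝ) : Hp (th u (v + 1)) = Hp (th u v) := by
  rw [th_v, Hp_smul (ex_norm _)]

theorem tor_ee (j : Fin 5) (y : Fin 5 → ℝ) : tor (y + ee j) = tor y := by
  unfold tor
  apply Subtype.ext
  funext i
  fin_cases j <;> fin_cases i <;>
    simp [Pool.Agent.H289R3.FQ.ee, th_u, Hp_th_v]

theorem tor_int (n : Fin 5 → ℤ) (y : Fin 5 → ℝ) : tor (y + fun i => (n i : ℝ)) = tor y := by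
  have h1 : ∀ (i : Fin 5) (k : ℤ) (y : Fin 5 → ℝ), tor (y + (k : ℝ) • ee i) = tor y := by
    intro i k
    induction k using Int.induction_on with
    | zero => intro y; simp
    | succ k ih =>
      intro y
      have : y + (((k : ℤ) + 1 : ℤ) : ℝ) • ee i = (y + ((k : ℤ) : ℝ) • ee i) + ee i := by
        push_cast
        rw [add_smul, one_smul, add_assoc]
      rw [this, tor_ee, ih]
    | pred k ih =>
      intro y
      have : (y + ((-(k : ℤ) - 1 : ℤ) : ℝ) • ee i) + ee i = (y + ((-(k : ℤ) : ℤ) : ℝ) • ee i) := by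
        push_cast
        rw [sub_smul, one_smul]
        abel
      rw [← tor_ee i, this, ih]
  have h2 : (fun i => (n i : ℝ)) = ∑ i, (n i : ℝ) • ee i := by
    funext j
    rw [Finset.sum_apply]
    simp only [Pool.Agent.H289R3.FQ.ee, Pi.smul_apply, smul_eq_mul, Pi.single_apply]
    simp
  rw [h2]
  have h3 : ∀ (s : Finset (Fin 5)) (y : Fin 5 → ℝ), tor (y + ∑ i ∈ s, (n i : ℝ) • ee i) = tor y := by
    classical
    intro s
    induction s using Finset.induction_on with
    | empty => intro y; simp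
    | insert a s ha ih =>
      intro y
      rw [Finset.sum_insert ha, ← add_assoc, ih, h1]
  exact h3 _ y

theorem tor_range : range tor ⊆ tor '' Icc 0 1 := by
  rintro _ ⟨y, rfl⟩
  refine ⟨fun i => Int.fract (y i), ⟨fun i => Int.fract_nonneg _, fun i => (Int.fract_lt_one _).le⟩, ?_⟩
  rw [← tor_int (fun i => ⌊y i⌋)]
  congr 1
  funext i
  simp only [Pi.add_apply]
  rw [add_comm]
  exact Int.floor_add_fract _

abbrev EE : Type := EuclideanSpace ℝ (Fin 10)

section pull
variable {Φ : ℝ → EE → EE} {f : EE → QQ}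

/-- the pulled-back space -/
abbrev WW (f : EE → QQ) : Type := {w : EE × (Fin 5 → ℝ) // f w.1 = tor w.2}

theorem Fl.closed_WW (h : Fl Φ f) : IsClosed {w : EE × (Fin 5 → ℝ) | f w.1 = tor w.2} :=
  isClosed_eq (h.fcont.comp continuous_fst) (tor_cont.comp continuous_snd)

/-- the flow on the pull back -/
def fW (h : Fl Φ f) (t : ℝ) (w : WW f) : WW f :=
  ⟨(Φ t w.1.1, w.1.2), by
    rw [← w.2]
    exact h.f_flow t w.1.1⟩

/-- the projection -/
def pW (w : WW f) : Fin 5 → ℝ := w.1.2

theorem fl_W (h : Fl Φ f) : Fl (fW h) (pW (f := f)) where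
  cont := by
    unfold fW
    refine Continuous.subtype_mk ?_ _
    refine Continuous.prodMk ?_ ?_
    · have h1 : Continuous (fun p : ℝ × WW f => (p.1, p.2.1.1)) :=
        continuous_fst.prodMk (continuous_fst.comp (continuous_subtype_val.comp continuous_snd))
      exact h.cont.comp h1
    · exact continuous_snd.comp (continuous_subtype_val.comp continuous_snd)
  zero := by
    intro w
    apply Subtype.ext
    change (Φ 0 w.1.1, w.1.2) = w.1
    rw [h.zero]
  add := by
    intro s t w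
    apply Subtype.ext
    change (Φ (s + t) w.1.1, w.1.2) = (Φ s (Φ t w.1.1), w.1.2)
    rw [h.add]
  fcont := continuous_snd.comp continuous_subtype_val
  fopen := by
    rw [isOpenMap_iff_nhds_le]
    intro w U hU
    rw [Filter.mem_map] at hU
    obtain ⟨V, hV, hVU⟩ := mem_nhds_induced _ _ _ |>.1 hU
    rw [nhds_prod_eq, Filter.mem_prod_iff] at hV
    obtain ⟨V1, hV1, V2, hV2, hV12⟩ := hV
    have h1 : f '' V1 ∈ 𝓝 (f w.1.1) := h.fopen.image_mem_nhds hV1
    rw [w.2] at h1
    have h2 : tor ⁻¹' (f '' V1) ∈ 𝓝 w.1.2 := tor_cont.continuousAt h1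
    filter_upwards [h2, hV2] with y hy1 hy2
    obtain ⟨x, hx, hxy⟩ := hy1
    exact hVU (a := ⟨(x, y), hxy⟩) (hV12 ⟨hx, hy2⟩)
  fsurj := by
    intro y
    obtain ⟨x, hx⟩ := h.fsurj (tor y)
    exact ⟨⟨(x, y), hx⟩, rfl⟩
  fibre := by
    intro w w'
    constructor
    · intro hww
      have h1 : f w.1.1 = f w'.1.1 := by
        rw [w.2, w'.2]
        exact congrArg tor hww
      obtain ⟨t, ht⟩ := (h.fibre _ _).1 h1
      refine ⟨t, ?_⟩
      apply Subtype.ext
      change (Φ t w.1.1, w.1.2) = w'.1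
      rw [ht]
      exact Prod.ext rfl hww
    · rintro ⟨t, rfl⟩
      rfl

theorem exists_ld (h : Fl Φ f) : ∃ R : ℝ, LineData (fW h) (pW (f := f)) (fun w => ‖w.1.1‖) R := by
  have hc : IsCompact (tor '' Icc 0 1) := isCompact_Icc.image tor_cont
  obtain ⟨n, hn⟩ := hc.elim_directed_cover (fun n : ℕ => f '' ball (0 : EE) n)
    (fun n => h.fopen _ isOpen_ball) (by
      intro q _
      obtain ⟨x, rfl⟩ := h.fsurj q
      obtain ⟨n, hn⟩ := exists_nat_gt ‖x‖
      exact mem_iUnion.2 ⟨n, x, by simpa using hn, rfl⟩) (by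
      intro a b
      refine ⟨max a b, ?_, ?_⟩
      · exact image_mono (ball_subset_ball (by exact_mod_cast le_max_left a b))
      · exact image_mono (ball_subset_ball (by exact_mod_cast le_max_right a b)))
  refine ⟨n, ?_⟩
  constructor
  · exact fl_W h
  · exact (continuous_fst.comp continuous_subtype_val).norm
  · intro K r hK
    have h1 : IsClosedEmbedding (Subtype.val : WW f → EE × (Fin 5 → ℝ)) :=
      h.closed_WW.isClosedEmbedding_subtypeVal
    have h2 := h1.isCompact_preimage ((isCompact_closedBall (0 : EE) r).prod hK)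
    convert h2 using 1
    ext w
    simp only [mem_inter_iff, mem_preimage, mem_ofPred_eq, mem_prod, mem_closedBall,
      dist_zero_right, pW]
    exact and_comm
  · intro w _
    obtain ⟨x, hx, hxf⟩ := hn (tor_range ⟨w.1.2, rfl⟩)
    rw [← w.2] at hxf
    obtain ⟨t, ht⟩ := (h.fibre _ _).1 hxf.symm
    refine ⟨t, ?_⟩
    change ‖Φ t w.1.1‖ < n
    rw [ht]
    simpa using hx

/-- the shifts -/
noncomputable def sW (j : Fin 5) (w : WW f) : WW f := ⟨(w.1.1, w.1.2 + ee j), by rw [tor_ee]; exact w.2⟩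

theorem ang_shift {g : ℂ × ℂ} {u v : ℝ} (h : lam g (th u v) ≠ 0) :
    ang (lam g (th u (v + 1))) = ang (lam g (th u v)) + ((u : ℝ) : T1) := by
  rw [th_v, lam_smul, ang_mul u h]

theorem angle_cont {X : Type} [TopologicalSpace X] {g : X → ℂ × ℂ} {u v : X → ℝ}
    (hg : Continuous g) (hu : Continuous u) (hv : Continuous v)
    (h : ∀ x, lam (g x) (th (u x) (v x)) ≠ 0) :
    Continuous (fun x => ang (lam (g x) (th (u x) (v x)))) := by
  rw [continuous_iff_continuousAt]
  intro x
  have h0 : Continuous (fun x => th (u x) (v x)) :=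
    Continuous.comp (g := fun p : ℝ × ℝ => th p.1 p.2) (f := fun x => (u x, v x))
      th_cont (hu.prodMk hv)
  have h1 : Continuous (fun x => (g x, th (u x) (v x))) := hg.prodMk h0
  have h2 : ContinuousAt (fun x => lam (g x) (th (u x) (v x))) x :=
    ContinuousAt.comp (f := fun x => (g x, th (u x) (v x)))
      (g := fun p : (ℂ × ℂ) × (ℂ × ℂ) => lam p.1 p.2) (lam_contAt (th_ne _ _)) h1.continuousAt
  exact ContinuousAt.comp (f := fun x => lam (g x) (th (u x) (v x))) (g := ang)
    (ang_cont (h x)) h2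

theorem Fl.absurd (h : Fl Φ f) : False := by
  obtain ⟨R, L⟩ := exists_ld h
  have hu : ∀ i, Continuous (fun x => nu ((f x).1 i)) := by
    intro i
    rw [continuous_iff_continuousAt]
    intro x
    have h1 : Continuous (fun x => (f x).1 i) :=
      (continuous_apply i).comp (continuous_subtype_val.comp h.fcont)
    exact ContinuousAt.comp (f := fun x => (f x).1 i) (g := nu) (nu_contAt ((f x).2 i))
      h1.continuousAt
  choose g hg hg' using fun i => exists_lift (hu i) (fun x => nu_unit ((f x).2 i))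
  have hlam : ∀ (i : Fin 3) (a b : Fin 5), (∀ y, (tor y).1 i = Hp (th (y a) (y b))) →
      ∀ w : WW f, lam (g i w.1.1) (th (w.1.2 a) (w.1.2 b)) ≠ 0 := by
    intro i a b hab w
    apply lam_ne (hg' i _).1 (th_ne _ _)
    have h1 := (hg' i w.1.1).2
    rw [w.2, hab] at h1
    exact prop_of_line h1 (Hp_line (th_ne _ _))
  have hcont : ∀ (i : Fin 3) (a b : Fin 5), (∀ y, (tor y).1 i = Hp (th (y a) (y b))) →
      Continuous (fun w : WW f => ang (lam (g i w.1.1) (th (w.1.2 a) (w.1.2 b)))) := by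
    intro i a b hab
    apply angle_cont
    · exact (hg i).comp (continuous_fst.comp continuous_subtype_val)
    · exact (continuous_apply a).comp (continuous_snd.comp continuous_subtype_val)
    · exact (continuous_apply b).comp (continuous_snd.comp continuous_subtype_val)
    · exact hlam i a b hab
  have : LocallyCompactSpace (WW f) := h.closed_WW.locallyCompactSpace
  refine no_flow L (sh := sW)
    (A := fun w : WW f => ang (lam (g 0 w.1.1) (th (w.1.2 0) (w.1.2 1))))
    (B := fun w : WW f => ang (lam (g 1 w.1.1) (th (w.1.2 2) (w.1.2 3))))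
    (C := fun w : WW f => ang (lam (g 2 w.1.1) (th (w.1.2 2) (w.1.2 4))))
    ?_ ?_ ?_ ?_ ?_ ?_ ?_ ?_ ?_ ?_
  · intro j w w' hww
    have h1 : (w.1.1, w.1.2 + ee j) = (w'.1.1, w'.1.2 + ee j) := congrArg Subtype.val hww
    apply Subtype.ext
    have h2 : w.1.1 = w'.1.1 := (Prod.mk.inj h1).1
    have h3 : w.1.2 + ee j = w'.1.2 + ee j := (Prod.mk.inj h1).2
    exact Prod.ext h2 (add_right_cancel h3)
  · intro j w; rfl
  · intro j t w; rfl
  · intro j w; rfl
  · exact hcont 0 0 1 (fun y => rfl)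
  · exact hcont 1 2 3 (fun y => rfl)
  · exact hcont 2 2 4 (fun y => rfl)
  · intro j w
    have h1 := hlam 0 0 1 (fun y => rfl) w
    change ang (lam (g 0 w.1.1) (th ((w.1.2 + ee j) 0) ((w.1.2 + ee j) 1))) = _
    fin_cases j
    · simp [Pool.Agent.H289R3.FQ.ee, th_u]
    · simp only [Pool.Agent.H289R3.FQ.ee]
      simpa [pW] using ang_shift h1
    · simp [Pool.Agent.H289R3.FQ.ee]
    · simp [Pool.Agent.H289R3.FQ.ee]
    · simp [Pool.Agent.H289R3.FQ.ee]
  · intro j w
    have h1 := hlam 1 2 3 (fun y => rfl) w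
    change ang (lam (g 1 w.1.1) (th ((w.1.2 + ee j) 2) ((w.1.2 + ee j) 3))) = _
    fin_cases j
    · simp [Pool.Agent.H289R3.FQ.ee]
    · simp [Pool.Agent.H289R3.FQ.ee]
    · simp [Pool.Agent.H289R3.FQ.ee, th_u]
    · simp only [Pool.Agent.H289R3.FQ.ee]
      simpa [pW] using ang_shift h1
    · simp [Pool.Agent.H289R3.FQ.ee]
  · intro j w
    have h1 := hlam 2 2 4 (fun y => rfl) w
    change ang (lam (g 2 w.1.1) (th ((w.1.2 + ee j) 2) ((w.1.2 + ee j) 4))) = _
    fin_cases j
    · simp [Pool.Agent.H289R3.FQ.ee]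
    · simp [Pool.Agent.H289R3.FQ.ee]
    · simp [Pool.Agent.H289R3.FQ.ee, th_u]
    · simp [Pool.Agent.H289R3.FQ.ee]
    · simp only [Pool.Agent.H289R3.FQ.ee]
      simpa [pW] using ang_shift h1

end pull

/-- no smooth (continuous) flow on ten-space has orbit space `QQ` -/
theorem no_quot (Φ : ℝ → EE → EE) (hΦ : Continuous (fun p : ℝ × EE => Φ p.1 p.2))
    (h0 : ∀ x, Φ 0 x = x) (hadd : ∀ (s t : ℝ) (x : EE), Φ (s + t) x = Φ s (Φ t x))
    (e : Quot (fun x y : EE => ∃ t : ℝ, Φ t x = y) ≃ₜ QQ) : False := by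
  have hinv : ∀ t x, Φ (-t) (Φ t x) = x := by
    intro t x
    rw [← hadd, neg_add_cancel, h0]
  have hequiv : Equivalence (fun x y : EE => ∃ t : ℝ, Φ t x = y) := by
    constructor
    · intro x; exact ⟨0, h0 x⟩
    · rintro x _ ⟨t, rfl⟩
      exact ⟨-t, hinv t x⟩
    · rintro x _ _ ⟨t, rfl⟩ ⟨s, rfl⟩
      exact ⟨s + t, hadd s t x⟩
  have hmk : ∀ x y : EE, Quot.mk (fun x y : EE => ∃ t : ℝ, Φ t x = y) x =
      Quot.mk (fun x y : EE => ∃ t : ℝ, Φ t x = y) y ↔ ∃ t, Φ t x = y := by
    intro x y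
    exact hequiv.quot_mk_eq_iff x y
  have hopen : IsOpenMap (Quot.mk (fun x y : EE => ∃ t : ℝ, Φ t x = y)) := by
    intro U hU
    rw [← isQuotientMap_quot_mk.isOpen_preimage]
    have : Quot.mk (fun x y : EE => ∃ t : ℝ, Φ t x = y) ⁻¹'
        (Quot.mk (fun x y : EE => ∃ t : ℝ, Φ t x = y) '' U) = ⋃ t : ℝ, Φ t ⁻¹' U := by
      ext x
      simp only [mem_preimage, mem_image, mem_iUnion]
      constructor
      · rintro ⟨y, hy, hxy⟩
        obtain ⟨t, ht⟩ := (hmk x y).1 hxy.symm
        exact ⟨t, by rw [ht]; exact hy⟩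
      · rintro ⟨t, ht⟩
        exact ⟨Φ t x, ht, ((hmk x (Φ t x)).2 ⟨t, rfl⟩).symm⟩
    rw [this]
    exact isOpen_iUnion fun t => hU.preimage (hΦ.comp (continuous_const.prodMk continuous_id))
  have hfl : Fl Φ (fun x => e (Quot.mk _ x)) :=
    { cont := hΦ
      zero := h0
      add := hadd
      fcont := e.continuous.comp continuous_quot_mk
      fopen := e.isOpenMap.comp hopen
      fsurj := e.surjective.comp Quot.mk_surjective
      fibre := fun x y => (e.injective.eq_iff).trans (hmk x y) }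
  exact hfl.absurd

end Pool.Agent.V11201.FL
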