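import Pool.Agent.V11201.FL.Line
import Pool.Agent.H672R3.FQ.Stokes
import Pool.Agent.H790.FQ.Torus

set_option autoImplicit false
open Set Topology Filter MeasureTheory

namespace Pool.Agent.V11201.FL

open Pool.Agent.H289R3.FQ (ee)

variable {Y N : Type*} [TopologicalSpace Y] [TopologicalSpace N] {φ : ℝ → Y → Y} {f : Y → N}

theorem Ph.slope_flow (h : Fl φ f) {Ψ : Y → T1} {D : Y → ℝ → ℝ} (P : Ph φ Ψ D) {x : Y}
    (hs : SlopeIs (D x) 0) (s : ℝ) : SlopeIs (D (φ s x)) 0 := by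
  obtain ⟨M, hM⟩ := hs
  refine ⟨M + M, fun r => ?_⟩
  have e3 := P.cocycle h x s r
  have h1 := hM (s + r)
  have h2 := hM s
  have : D (φ s x) r - 0 * r = (D x (s + r) - 0 * (s + r)) - (D x s - 0 * s) := by
    rw [e3]; ring
  rw [this]
  exact (abs_sub _ _).trans (add_le_add h1 h2)

theorem Ph.slope_fibre (h : Fl φ f) {Ψ : Y → T1} {D : Y → ℝ → ℝ} (P : Ph φ Ψ D) {x y : Y}
    (hxy : f x = f y) (hs : SlopeIs (D x) 0) : SlopeIs (D y) 0 := by
  obtain ⟨s, rfl⟩ := (h.fibre x y).1 hxy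
  exact P.slope_flow h hs s

theorem Ph.exists_meanfun [T2Space Y] [NormalSpace Y] [LocallyCompactSpace Y] [T2Space N]
    (h : Fl φ f) {Ψ : Y → T1} {D : Y → ℝ → ℝ} (P : Ph φ Ψ D) :
    ∃ g : N → T1, ∀ x, IsCompact (f ⁻¹' {f x}) → SlopeIs (D x) 0 → ContinuousAt g (f x) ∧
      ∀ a : ℝ, SlopeIs (fun S => ∫ t in (0 : ℝ)..S, D x t) a → g (f x) = Ψ x + ((a : ℝ) : T1) := by
  classical
  let σ := Function.surjInv h.fsurj
  have hσ : ∀ n, f (σ n) = n := Function.surjInv_eq h.fsurj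
  let m : Y → ℝ := fun x => if hh : ∃ a : ℝ, SlopeIs (fun S => ∫ t in (0 : ℝ)..S, D x t) a then
    hh.choose else 0
  have hm : ∀ x a, SlopeIs (fun S => ∫ t in (0 : ℝ)..S, D x t) a → m x = a := by
    intro x a ha
    have hh : ∃ a : ℝ, SlopeIs (fun S => ∫ t in (0 : ℝ)..S, D x t) a := ⟨a, ha⟩
    simp only [m, hh, dif_pos]
    exact hh.choose_spec.unique ha
  let g : N → T1 := fun n => Ψ (σ n) + ((m (σ n) : ℝ) : T1)
  have key : ∀ x, IsCompact (f ⁻¹' {f x}) → SlopeIs (D x) 0 →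
      ∀ a : ℝ, SlopeIs (fun S => ∫ t in (0 : ℝ)..S, D x t) a → g (f x) = Ψ x + ((a : ℝ) : T1) := by
    intro x hx hs a ha
    obtain ⟨s, hs'⟩ := (h.fibre x (σ (f x))).1 (hσ _).symm
    have h1 := P.mean_shift h hs ha s
    rw [hs'] at h1
    simp only [g]
    rw [hm _ _ h1, ← hs', P.eq, AddCircle.coe_sub]
    abel
  refine ⟨g, fun x hx hs => ⟨?_, key x hx hs⟩⟩
  obtain ⟨a₀, ha₀⟩ := P.exists_mean h hx hs
  rw [Metric.continuousAt_iff']
  intro ε hε
  filter_upwards [P.slope_zero_near h hx hs, h.compact_nhds hx,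
    P.mean_near h hx hs ha₀ (half_pos hε)] with n h1 h2 h3
  have e1 : IsCompact (f ⁻¹' {f (σ n)}) := by rw [hσ]; exact h2
  have e2 := h1 (σ n) (hσ n)
  obtain ⟨a, ha⟩ := P.exists_mean h e1 e2
  obtain ⟨r, hr, hr'⟩ := h3 (σ n) (hσ n) a ha
  have e3 := key (σ n) e1 e2 a ha
  rw [hσ] at e3
  rw [e3, hr', key x hx hs a₀ ha₀, dist_eq_norm, add_sub_cancel_left]
  have h4 : ‖((r : ℝ) : T1)‖ ≤ |r| := by
    have := AddCircle.norm_eq (p := (1 : ℝ)) (x := r)
    rw [this]
    simp only [inv_one, one_mul, mul_one]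
    have h5 := round_le r 0
    simpa using h5
  linarith

/-- The abstract form of the obstruction. -/
theorem no_flow {W : Type} [TopologicalSpace W] [T2Space W] [NormalSpace W]
    [LocallyCompactSpace W] {φ : ℝ → W → W} {F : W → (Fin 5 → ℝ)} {ρ : W → ℝ} {R : ℝ}
    (L : LineData φ F ρ R) {sh : Fin 5 → W → W} (sh_inj : ∀ j, Function.Injective (sh j))
    (sh_F : ∀ j z, F (sh j z) = F z + ee j) (sh_φ : ∀ j t z, φ t (sh j z) = sh j (φ t z))
    (sh_ρ : ∀ j z, ρ (sh j z) = ρ z) {A B C : W → T1} (hA : Continuous A) (hB : Continuous B)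
    (hC : Continuous C)
    (sA : ∀ j z, A (sh j z) = A z + (if j = 1 then ((F z 0 : ℝ) : T1) else 0))
    (sB : ∀ j z, B (sh j z) = B z + (if j = 3 then ((F z 2 : ℝ) : T1) else 0))
    (sC : ∀ j z, C (sh j z) = C z + (if j = 4 then ((F z 2 : ℝ) : T1) else 0)) : False := by
  classical
  have h := L.fl
  obtain ⟨DA, PA⟩ := Ph.exists h hA
  obtain ⟨DB, PB⟩ := Ph.exists h hB
  obtain ⟨DC, PC⟩ := Ph.exists h hC
  -- increments are invariant under the shifts
  have shD : ∀ {Ψ : W → T1} {D : W → ℝ → ℝ}, Ph φ Ψ D → (∀ j z t, Ψ (φ t (sh j z)) - Ψ (sh j z) =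
      Ψ (φ t z) - Ψ z) → ∀ j z t, D (sh j z) t = D z t := by
    intro Ψ D P hh j z t
    have hu : Continuous (fun t => D (sh j z) t - D z t) := (P.contt _).sub (P.contt _)
    have := int_const hu (fun t => ?_) t 0
    · simp only [P.zero, sub_self] at this
      linarith
    · have h1 := P.eq (sh j z) t
      have h2 := P.eq z t
      have h3 := hh j z t
      rw [h1, h2] at h3
      rw [AddCircle.coe_sub]
      have h4 : ((D (sh j z) t : ℝ) : T1) = ((D z t : ℝ) : T1) := by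
        have e1 : Ψ (sh j z) + ((D (sh j z) t : ℝ) : T1) - Ψ (sh j z) = ((D (sh j z) t : ℝ) : T1) := by
          abel
        have e2 : Ψ z + ((D z t : ℝ) : T1) - Ψ z = ((D z t : ℝ) : T1) := by abel
        rw [← e1, ← e2]
        exact h3
      rw [h4, sub_self]
  have shDA : ∀ j z t, DA (sh j z) t = DA z t := shD PA (fun j z t => by
    rw [sh_φ, sA, sA, h.f_flow]; abel)
  have shDB : ∀ j z t, DB (sh j z) t = DB z t := shD PB (fun j z t => by
    rw [sh_φ, sB, sB, h.f_flow]; abel)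
  have shDC : ∀ j z t, DC (sh j z) t = DC z t := shD PC (fun j z t => by
    rw [sh_φ, sC, sC, h.f_flow]; abel)
  -- compactness of the fibres is periodic
  have shc : ∀ j z, IsCompact (F ⁻¹' {F (sh j z)}) ↔ IsCompact (F ⁻¹' {F z}) := by
    intro j z
    constructor
    · intro hc
      obtain ⟨T, hT, hx⟩ := h.periodic hc
      rw [sh_φ] at hx
      exact h.compact_of_periodic hT.ne' (sh_inj j hx)
    · intro hc
      obtain ⟨T, hT, hx⟩ := h.periodic hc
      apply h.compact_of_periodic hT.ne'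
      rw [sh_φ, hx]
  -- the noncompact orbits
  obtain ⟨g, hg, hg'⟩ := L.exists_section PA
  have shA : ∀ j z, AA φ ρ R DA (sh j z) = AA φ ρ R DA z := by
    intro j z
    unfold AA
    congr 1
    funext r
    rw [shDA]
    congr 1
    unfold ent
    congr 1
    ext t
    simp only [mem_ofPred_eq]
    rw [sh_φ, sh_ρ]
  -- the compact orbits
  let B₀ : Set (Fin 5 → ℝ) := {y | IsCompact (F ⁻¹' {y}) ∧ ∀ z, F z = y → SlopeIs (DC z) 0}
  let B₁ : Set (Fin 5 → ℝ) := {y | IsCompact (F ⁻¹' {y}) ∧ ∀ z, F z = y → ¬ SlopeIs (DC z) 0}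
  have hB₀ : ∀ z, F z ∈ B₀ ↔ IsCompact (F ⁻¹' {F z}) ∧ SlopeIs (DC z) 0 := by
    intro z
    constructor
    · rintro ⟨h1, h2⟩
      exact ⟨h1, h2 z rfl⟩
    · rintro ⟨h1, h2⟩
      exact ⟨h1, fun w hw => PC.slope_fibre h hw.symm h2⟩
  have hB₁ : ∀ z, F z ∈ B₁ ↔ IsCompact (F ⁻¹' {F z}) ∧ ¬ SlopeIs (DC z) 0 := by
    intro z
    constructor
    · rintro ⟨h1, h2⟩
      exact ⟨h1, h2 z rfl⟩
    · rintro ⟨h1, h2⟩
      exact ⟨h1, fun w hw hs => h2 (PC.slope_fibre h hw hs)⟩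
  have hB₀o : IsOpen B₀ := by
    rw [isOpen_iff_mem_nhds]
    intro y hy
    obtain ⟨z, rfl⟩ := h.fsurj y
    rw [hB₀] at hy
    filter_upwards [PC.slope_zero_near h hy.1 hy.2, h.compact_nhds hy.1] with n h1 h2
    exact ⟨h2, h1⟩
  have hB₁o : IsOpen B₁ := by
    rw [isOpen_iff_mem_nhds]
    intro y hy
    obtain ⟨z, rfl⟩ := h.fsurj y
    rw [hB₁] at hy
    filter_upwards [PC.slope_ne_near h hy.1 hy.2, h.compact_nhds hy.1] with n h1 h2
    exact ⟨h2, h1⟩
  have hdisj : Disjoint B₀ B₁ := by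
    rw [disjoint_left]
    intro y h0 h1
    obtain ⟨z, rfl⟩ := h.fsurj y
    exact ((hB₁ z).1 h1).2 ((hB₀ z).1 h0).2
  have hDCfun : ∀ j z, DC (sh j z) = DC z := fun j z => funext (shDC j z)
  have hDBfun : ∀ j z, DB (sh j z) = DB z := fun j z => funext (shDB j z)
  have hper₀ : ∀ y j, y ∈ B₀ ↔ y + ee j ∈ B₀ := by
    intro y j
    obtain ⟨z, rfl⟩ := h.fsurj y
    rw [← sh_F, hB₀, hB₀, shc, hDCfun]
  have hper₁ : ∀ y j, y ∈ B₁ ↔ y + ee j ∈ B₁ := by
    intro y j
    obtain ⟨z, rfl⟩ := h.fsurj y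
    rw [← sh_F, hB₁, hB₁, shc, hDCfun]
  -- the combinations
  let Pq : ∀ q : ℚ, Ph φ (fun x => ((q.den : ℤ) • B x + (-q.num) • C x))
      (fun x t => ((q.den : ℤ) : ℝ) * DB x t + ((-q.num : ℤ) : ℝ) * DC x t) :=
    fun q => PB.comb PC q.den (-q.num)
  let Q : (Fin 5 → ℝ) → ℚ → Prop := fun y q => ∀ z, F z = y →
    SlopeIs (fun t => ((q.den : ℤ) : ℝ) * DB z t + ((-q.num : ℤ) : ℝ) * DC z t) 0
  have hQ : ∀ z q, Q (F z) q ↔
      SlopeIs (fun t => ((q.den : ℤ) : ℝ) * DB z t + ((-q.num : ℤ) : ℝ) * DC z t) 0 := by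
    intro z q
    constructor
    · intro hh
      exact hh z rfl
    · intro hh w hw
      exact (Pq q).slope_fibre h hw.symm hh
  have hQex : ∀ y ∈ B₁, ∃ q, Q y q := by
    intro y hy
    obtain ⟨z, rfl⟩ := h.fsurj y
    rw [hB₁] at hy
    obtain ⟨T, hT, hx⟩ := h.periodic hy.1
    obtain ⟨kb, hkb⟩ := PB.int_period hx
    obtain ⟨kc, hkc⟩ := PC.int_period hx
    have hkc0 : kc ≠ 0 := by
      rintro rfl
      apply hy.2
      have := PC.slope h hT hx
      rwa [hkc, Int.cast_zero, zero_div] at this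
    refine ⟨(kb : ℚ) / kc, ?_⟩
    rw [hQ]
    set q : ℚ := (kb : ℚ) / kc with hq
    have h1 := (Pq q).slope h hT hx
    have h2 : ((q.den : ℤ) : ℝ) * DB z T + ((-q.num : ℤ) : ℝ) * DC z T = 0 := by
      rw [hkb, hkc]
      have h3 : (q.den : ℚ) * kb = q.num * kc := by
        have hden : (q.den : ℚ) ≠ 0 := by exact_mod_cast q.den_nz
        have hkc' : (kc : ℚ) ≠ 0 := by exact_mod_cast hkc0
        have e1 : q * q.den = q.num := Rat.mul_den_eq_num q
        have e2 : q * kc = kb := by rw [hq]; field_simp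
        rw [← e1, ← e2]
        ring
      have h4 : ((q.den : ℤ) * kb : ℤ) = q.num * kc := by exact_mod_cast h3
      have h5 : (((q.den : ℤ) * kb : ℤ) : ℝ) = ((q.num * kc : ℤ) : ℝ) := by rw [h4]
      push_cast at h5 ⊢
      linarith
    rw [h2, zero_div] at h1
    exact h1
  have hQun : ∀ y ∈ B₁, ∀ q q', Q y q → Q y q' → q = q' := by
    intro y hy q q' h1 h2
    obtain ⟨z, rfl⟩ := h.fsurj y
    rw [hB₁] at hy
    rw [hQ] at h1 h2
    obtain ⟨M, hM⟩ := h1
    obtain ⟨M', hM'⟩ := h2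
    by_contra hne
    apply hy.2
    set c : ℝ := (q.den : ℝ) * q'.num - q'.den * q.num with hc
    have hc0 : c ≠ 0 := by
      intro h0
      apply hne
      have h3 : ((q.den * q'.num : ℤ) : ℝ) = ((q'.den * q.num : ℤ) : ℝ) := by
        push_cast
        linarith
      have h4 : (q.den * q'.num : ℤ) = q'.den * q.num := by exact_mod_cast h3
      have h5 : (q.den : ℚ) * q'.num = q'.den * q.num := by exact_mod_cast h4
      rw [← Rat.mul_den_eq_num q, ← Rat.mul_den_eq_num q'] at h5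
      have hd : (q.den : ℚ) ≠ 0 := by exact_mod_cast q.den_nz
      have hd' : (q'.den : ℚ) ≠ 0 := by exact_mod_cast q'.den_nz
      have h6 : (q.den : ℚ) * q'.den * (q' - q) = 0 := by linarith
      rcases mul_eq_zero.1 h6 with h7 | h7
      · exact absurd h7 (mul_ne_zero hd hd')
      · linarith
    refine ⟨(q'.den * M + q.den * M') / |c|, fun t => ?_⟩
    rw [zero_mul, sub_zero, le_div_iff₀ (abs_pos.2 hc0)]
    have h3 := hM t
    have h4 := hM' t
    rw [zero_mul, sub_zero] at h3 h4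
    push_cast at h3 h4
    have e : DC z t * c = (q'.den : ℝ) * ((q.den : ℝ) * DB z t + -(q.num : ℝ) * DC z t) -
        (q.den : ℝ) * ((q'.den : ℝ) * DB z t + -(q'.num : ℝ) * DC z t) := by
      rw [hc]; ring
    rw [← abs_mul, e]
    refine (abs_sub _ _).trans ?_
    rw [abs_mul, abs_mul, Nat.abs_cast, Nat.abs_cast]
    exact add_le_add (mul_le_mul_of_nonneg_left h3 (Nat.cast_nonneg _))
      (mul_le_mul_of_nonneg_left h4 (Nat.cast_nonneg _))
  let r : (Fin 5 → ℝ) → ℚ := fun y => if hh : ∃ q, Q y q then hh.choose else 0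
  have hr : ∀ y ∈ B₁, Q y (r y) := by
    intro y hy
    have hh := hQex y hy
    simp only [r, hh, dif_pos]
    exact hh.choose_spec
  have hreq : ∀ y ∈ B₁, ∀ q, Q y q → r y = q := fun y hy q hq => hQun y hy _ _ (hr y hy) hq
  have hrloc : ∀ y ∈ B₁, ∀ᶠ y' in 𝓝 y, r y' = r y := by
    intro y hy
    obtain ⟨z, rfl⟩ := h.fsurj y
    have h1 := (hQ _ _).1 (hr _ hy)
    have h2 := ((hB₁ _).1 hy).1
    filter_upwards [(Pq (r (F z))).slope_zero_near h h2 h1, hB₁o.mem_nhds hy] with n h3 h4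
    exact hreq n h4 _ h3
  have hrper : ∀ y ∈ B₁, ∀ j, r (y + ee j) = r y := by
    intro y hy j
    apply hreq _ ((hper₁ y j).1 hy)
    obtain ⟨z, rfl⟩ := h.fsurj y
    rw [← sh_F, hQ, hDCfun, hDBfun]
    exact (hQ _ _).1 (hr _ hy)
  choose G hG using fun q : ℚ => (Pq q).exists_meanfun h
  obtain ⟨G₀, hG₀⟩ := PC.exists_meanfun h
  refine Pool.Agent.H790.FQ.taskTorus Pool.Agent.H672R3.FQ.taskStokes
    {y | ¬ IsCompact (F ⁻¹' {y})} h.isClosed_noncompact ?_ g hg ?_ ?_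
  · intro y j
    obtain ⟨z, rfl⟩ := h.fsurj y
    rw [← sh_F]
    exact not_congr (shc j z).symm
  · intro y hy j
    obtain ⟨z, rfl⟩ := h.fsurj y
    have hy' : ¬ IsCompact (F ⁻¹' {F (sh j z)}) := by rw [shc]; exact hy
    rw [← sh_F, hg' _ hy', hg' _ hy, shA, sA]
    abel
  · intro δ hδ
    refine ⟨B₀, B₁, G₀, fun y => G (r y) y, r, hB₀o, hB₁o, hdisj, hper₀, hper₁, ?_, ?_, ?_, ?_,
      hrloc, hrper, ?_⟩
    · intro y hy
      have hyc : IsCompact (F ⁻¹' {y}) := by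
        by_contra hcon
        have := hy y hcon
        rw [dist_self] at this
        linarith
      obtain ⟨z, rfl⟩ := h.fsurj y
      by_cases hs : SlopeIs (DC z) 0
      · exact Or.inl ((hB₀ z).2 ⟨hyc, hs⟩)
      · exact Or.inr ((hB₁ z).2 ⟨hyc, hs⟩)
    · intro y hy
      obtain ⟨z, rfl⟩ := h.fsurj y
      have := (hB₀ z).1 hy
      exact (hG₀ z this.1 this.2).1.continuousWithinAt
    · intro y hy
      obtain ⟨z, rfl⟩ := h.fsurj y
      have h1 := (hB₁ z).1 hy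
      have h2 := (hG (r (F z)) z h1.1 ((hQ _ _).1 (hr _ hy))).1
      have h3 : ContinuousAt (fun y => G (r y) y) (F z) := by
        apply h2.congr
        filter_upwards [hrloc _ hy] with n hn
        rw [hn]
      exact h3.continuousWithinAt
    · intro y hy j
      obtain ⟨z, rfl⟩ := h.fsurj y
      have h1 := (hB₀ z).1 hy
      obtain ⟨a, ha⟩ := PC.exists_mean h h1.1 h1.2
      have h2 := (hG₀ z h1.1 h1.2).2 a ha
      have h3 : IsCompact (F ⁻¹' {F (sh j z)}) := by rw [shc]; exact h1.1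
      have h4 : SlopeIs (DC (sh j z)) 0 := by rw [hDCfun]; exact h1.2
      have h5 : SlopeIs (fun S => ∫ t in (0 : ℝ)..S, DC (sh j z) t) a := by
        simp_rw [hDCfun]
        exact ha
      have h6 := (hG₀ (sh j z) h3 h4).2 a h5
      rw [← sh_F, h6, h2, sC]
      abel
    · intro y hy j
      obtain ⟨z, rfl⟩ := h.fsurj y
      have h1 := (hB₁ z).1 hy
      set q := r (F z) with hq
      have h1' := (hQ _ _).1 (hr _ hy)
      rw [← hq] at h1'
      obtain ⟨a, ha⟩ := (Pq q).exists_mean h h1.1 h1'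
      have h2 := (hG q z h1.1 h1').2 a ha
      have h3 : IsCompact (F ⁻¹' {F (sh j z)}) := by rw [shc]; exact h1.1
      have h4 : SlopeIs (fun t => ((q.den : ℤ) : ℝ) * DB (sh j z) t +
          ((-q.num : ℤ) : ℝ) * DC (sh j z) t) 0 := by
        rw [hDCfun, hDBfun]; exact h1'
      have h5 : SlopeIs (fun S => ∫ t in (0 : ℝ)..S, (((q.den : ℤ) : ℝ) * DB (sh j z) t +
          ((-q.num : ℤ) : ℝ) * DC (sh j z) t)) a := by
        simp_rw [hDCfun, hDBfun]
        exact ha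
      have h6 := (hG q (sh j z) h3 h4).2 a h5
      have e : ∀ (c : ℤ) (r : ℝ), (((c : ℝ) * r : ℝ) : T1) = c • ((r : ℝ) : T1) := by
        intro c r
        rw [← zsmul_eq_mul, AddCircle.coe_zsmul]
      have hr1 : r (F z + ee j) = q := by rw [hrper _ hy j]
      change G (r (F z + ee j)) (F z + ee j) = G (r (F z)) (F z) + _
      rw [hr1, ← hq, ← sh_F, h6, h2, sB, sC]
      by_cases hj3 : j = 3
      · subst hj3
        have e1 := e q.den (F z 2)
        simp only [Fin.isValue, if_true, Fin.reduceEq, if_false, add_zero, smul_add]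
        have e2 : ((q.den : ℝ) * F z 2 : ℝ) = (((q.den : ℤ) : ℝ) * F z 2 : ℝ) := by push_cast; ring
        rw [e2, e1]
        abel
      · by_cases hj4 : j = 4
        · subst hj4
          have e1 := e (-q.num) (F z 2)
          simp only [Fin.isValue, if_true, Fin.reduceEq, if_false, add_zero, smul_add]
          have e2 : (-((q.num : ℝ) * F z 2) : ℝ) = (((-q.num : ℤ) : ℝ) * F z 2 : ℝ) := by
            push_cast; ring
          rw [e2, e1]
          abel
        · simp only [hj3, hj4, if_false, add_zero]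

end Pool.Agent.V11201.FL
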