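import Pool.Agent.V11201.FL.Slope

set_option autoImplicit false
open Set Topology Filter
open scoped unitInterval

namespace Pool.Agent.V11201.FL

variable {Y N : Type*} [TopologicalSpace Y] [TopologicalSpace N] {φ : ℝ → Y → Y} {f : Y → N}

theorem Ph.exists (h : Fl φ f) {Ψ : Y → T1} (hΨ : Continuous Ψ) : ∃ D, Ph φ Ψ D := by
  let H : C(I × (Y × ℝ), T1) := ⟨fun p => Ψ (φ (p.1 * p.2.2) p.2.1) - Ψ p.2.1, by
    have h1 : Continuous (fun p : I × (Y × ℝ) => (((p.1 : ℝ) * p.2.2, p.2.1) : ℝ × Y)) := by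
      fun_prop
    have h2 : Continuous (fun p : I × (Y × ℝ) => p.2.1) := by fun_prop
    exact (hΨ.comp (h.cont.comp h1)).sub (hΨ.comp h2)⟩
  have hcov := AddCircle.isCoveringMap_coe (1 : ℝ)
  have H0 : ∀ a : Y × ℝ, H (0, a) = ((0 : ℝ) : T1) := by
    intro a
    change Ψ (φ (((0 : I) : ℝ) * a.2) a.1) - Ψ a.1 = _
    simp [h.zero]
  let L := hcov.liftHomotopy H (ContinuousMap.const _ 0) H0
  have hL : ∀ p, ((L p : ℝ) : T1) = H p := fun p =>
    congrFun (hcov.liftHomotopy_lifts H (ContinuousMap.const _ 0) H0) p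
  have hL0 : ∀ a, L (0, a) = 0 := fun a => hcov.liftHomotopy_zero H (ContinuousMap.const _ 0) H0 a
  refine ⟨fun x t => L (1, (x, t)), hΨ, ?_, ?_, ?_⟩
  · exact L.continuous.comp (continuous_const.prodMk continuous_id)
  · intro x
    -- constant path
    have hc : Continuous (fun s : ℝ => L (projIcc 0 1 zero_le_one s, (x, (0 : ℝ)))) :=
      L.continuous.comp (continuous_projIcc.prodMk continuous_const)
    have := int_const hc (fun s => by
      rw [hL]
      change Ψ (φ (_ * (0 : ℝ)) x) - Ψ x = 0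
      rw [mul_zero, h.zero, sub_self]) 1 0
    simp only [projIcc_left, projIcc_right] at this
    rw [show L (1, (x, (0 : ℝ))) = L (0, (x, (0 : ℝ))) from this, hL0]
  · intro x t
    have := hL (1, (x, t))
    change ((L (1, (x, t)) : ℝ) : T1) = Ψ (φ (((1 : I) : ℝ) * t) x) - Ψ x at this
    rw [this]
    simp

/-- near a compact orbit of slope zero all slopes are zero -/
theorem Ph.slope_zero_near [T2Space Y] [NormalSpace Y] [LocallyCompactSpace Y] [T2Space N]
    (h : Fl φ f) {Ψ : Y → T1} {D : Y → ℝ → ℝ} (P : Ph φ Ψ D) {x₀ : Y}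
    (hc : IsCompact (f ⁻¹' {f x₀})) (hs : SlopeIs (D x₀) 0) :
    ∀ᶠ n in 𝓝 (f x₀), ∀ x, f x = n → SlopeIs (D x) 0 := by
  obtain ⟨T, hT, hx⟩ := h.periodic hc
  obtain ⟨ψ, O, hψ, hO, hsub, hΨ, -⟩ := P.exists_psi h hT hx hs
  obtain ⟨L, hL, hLO, hev⟩ := h.stable hc hO hsub
  filter_upwards [hev] with n hn x hxn
  have hmem : ∀ t, φ t x ∈ L := fun t => hn (by
    change f (φ t x) = n
    rw [h.f_flow, hxn])
  have key : ∀ t, D x t = ψ (φ t x) - ψ x := by
    intro t
    have hu : Continuous (fun t => D x t - (ψ (φ t x) - ψ x)) :=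
      (P.contt x).sub ((hψ.comp (h.orbit_cont x)).sub continuous_const)
    have := int_const hu (fun t => ?_) t 0
    · simp only [P.zero, h.zero, sub_self] at this
      linarith
    · have h1 := hΨ _ (hLO (hmem t))
      have h2 := hΨ _ (hLO (hmem 0))
      rw [h.zero] at h2
      have h3 := P.eq x t
      rw [AddCircle.coe_sub, AddCircle.coe_sub]
      have h4 : ((D x t : ℝ) : T1) = Ψ (φ t x) - Ψ x := by rw [h3]; abel
      rw [h4, h1, h2]
      abel
  obtain ⟨M, hM⟩ := hL.exists_bound_of_continuousOn hψ.continuousOn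
  refine ⟨M + M, fun t => ?_⟩
  rw [key, zero_mul, sub_zero]
  have h1 := hM _ (hmem t)
  have h2 := hM _ (hmem 0)
  rw [h.zero] at h2
  rw [Real.norm_eq_abs] at h1 h2
  exact (abs_sub _ _).trans (add_le_add h1 h2)

/-- near a compact orbit of nonzero slope all slopes are nonzero -/
theorem Ph.slope_ne_near [T2Space Y] [LocallyCompactSpace Y] [T2Space N]
    (h : Fl φ f) {Ψ : Y → T1} {D : Y → ℝ → ℝ} (P : Ph φ Ψ D) {x₀ : Y}
    (hc : IsCompact (f ⁻¹' {f x₀})) (hs : ¬ SlopeIs (D x₀) 0) :
    ∀ᶠ n in 𝓝 (f x₀), ∀ x, f x = n → ¬ SlopeIs (D x) 0 := by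
  obtain ⟨T, hT, hx⟩ := h.periodic hc
  have hk : D x₀ T ≠ 0 := by
    intro h0
    apply hs
    have := P.slope h hT hx
    rwa [h0, zero_div] at this
  have hconst : ∀ s, D (φ s x₀) T = D x₀ T := by
    intro s
    have e1 := P.cocycle h x₀ s T
    have e2 := P.cocycle h x₀ T s
    rw [hx] at e2
    rw [add_comm T s] at e2
    linarith
  have hJ : Continuous (fun z => D z T) := P.contD.comp (continuous_id.prodMk continuous_const)
  let O : Set Y := {z | |D z T - D x₀ T| < |D x₀ T| / 2}
  have hO : IsOpen O := isOpen_lt (hJ.sub continuous_const).abs continuous_const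
  have hsub : f ⁻¹' {f x₀} ⊆ O := by
    rw [h.fibre_eq]
    rintro _ ⟨s, rfl⟩
    change |D (φ s x₀) T - D x₀ T| < _
    rw [hconst, sub_self, abs_zero]
    have := abs_pos.2 hk
    linarith
  obtain ⟨L, hL, hLO, hev⟩ := h.stable hc hO hsub
  filter_upwards [hev] with n hn x hxn hzero
  have hmem : ∀ t, φ t x ∈ L := fun t => hn (by
    change f (φ t x) = n
    rw [h.f_flow, hxn])
  have hw := hzero.window (T := T) (c := D x₀ T) (δ := |D x₀ T| / 2) (fun s => by
    rw [P.cocycle h, add_sub_cancel_left]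
    exact (hLO (hmem s)).le)
  rw [zero_mul, zero_sub, abs_neg] at hw
  have := abs_pos.2 hk
  linarith

/-- the mean of the real increments exists on compact orbits of slope zero -/
theorem Ph.exists_mean [T2Space Y] [LocallyCompactSpace Y] [T1Space N]
    (h : Fl φ f) {Ψ : Y → T1} {D : Y → ℝ → ℝ} (P : Ph φ Ψ D) {x : Y}
    (hc : IsCompact (f ⁻¹' {f x})) (hs : SlopeIs (D x) 0) :
    ∃ a, SlopeIs (fun S => ∫ t in (0 : ℝ)..S, D x t) a := by
  obtain ⟨T, hT, hx⟩ := h.periodic hc
  have hper : Function.Periodic (fun t => D x t) T := fun t => P.per h hT hx hs t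
  refine ⟨(∫ t in (0 : ℝ)..T, D x t) / T, SlopeIs.of_periodic ?_ hT (fun S => ?_)⟩
  · exact intervalIntegral.continuous_primitive (fun a b => (P.contt x).intervalIntegrable a b) 0
  · have h1 := intervalIntegral.integral_add_adjacent_intervals
      ((P.contt x).intervalIntegrable 0 S) ((P.contt x).intervalIntegrable S (S + T))
      (μ := MeasureTheory.volume)
    rw [← h1]
    congr 1
    have h2 := hper.intervalIntegral_add_eq S 0
    rw [zero_add] at h2
    exact h2

/-- the mean changes in the right way along the orbit -/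
theorem Ph.mean_shift (h : Fl φ f) {Ψ : Y → T1} {D : Y → ℝ → ℝ} (P : Ph φ Ψ D) {x : Y} {a : ℝ}
    (hs : SlopeIs (D x) 0)
    (ha : SlopeIs (fun S => ∫ t in (0 : ℝ)..S, D x t) a) (s : ℝ) :
    SlopeIs (fun S => ∫ t in (0 : ℝ)..S, D (φ s x) t) (a - D x s) := by
  obtain ⟨M, hM⟩ := ha
  obtain ⟨B, hB⟩ := hs
  have hB' : ∀ t, |D x t| ≤ B := by
    intro t
    have := hB t
    rwa [zero_mul, sub_zero] at this
  refine ⟨M + |s| * B + |s| * B + M, fun S => ?_⟩
  have hi : ∀ a b, IntervalIntegrable (fun t => D x t) MeasureTheory.volume a b := fun a b =>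
    (P.contt x).intervalIntegrable a b
  have e1 : ∫ t in (0 : ℝ)..S, D (φ s x) t = (∫ t in s..(s + S), D x t) - S * D x s := by
    have e : ∀ t, D (φ s x) t = D x (s + t) - D x s := by
      intro t
      rw [P.cocycle h]
      ring
    simp_rw [e]
    rw [intervalIntegral.integral_sub]
    · rw [intervalIntegral.integral_const, sub_zero, smul_eq_mul]
      congr 1
      rw [intervalIntegral.integral_comp_add_left (fun t => D x t) s, add_zero]
    · exact ((P.contt x).comp (continuous_const.add continuous_id)).intervalIntegrable _ _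
    · exact continuous_const.intervalIntegrable _ _
  have e2 : ∫ t in s..(s + S), D x t = (∫ t in (0 : ℝ)..S, D x t) - (∫ t in (0 : ℝ)..s, D x t) +
      ∫ t in S..(s + S), D x t := by
    have h1 := intervalIntegral.integral_add_adjacent_intervals (hi 0 s) (hi s (s + S))
    have h2 := intervalIntegral.integral_add_adjacent_intervals (hi 0 S) (hi S (s + S))
    linarith
  have b1 : |∫ t in (0 : ℝ)..s, D x t| ≤ |s| * B := by
    have := intervalIntegral.norm_integral_le_of_norm_le_const (a := (0 : ℝ)) (b := s)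
      (f := fun t => D x t) (C := B) (fun t _ => by rw [Real.norm_eq_abs]; exact hB' t)
    rw [Real.norm_eq_abs, sub_zero] at this
    linarith
  have b2 : |∫ t in S..(s + S), D x t| ≤ |s| * B := by
    have := intervalIntegral.norm_integral_le_of_norm_le_const (a := S) (b := s + S)
      (f := fun t => D x t) (C := B) (fun t _ => by rw [Real.norm_eq_abs]; exact hB' t)
    rw [Real.norm_eq_abs, add_sub_cancel_right] at this
    linarith
  have hM0 : 0 ≤ M := (abs_nonneg _).trans (hM 0)
  have e3 : (∫ t in (0 : ℝ)..S, D (φ s x) t) - (a - D x s) * S =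
      ((∫ t in (0 : ℝ)..S, D x t) - a * S) - (∫ t in (0 : ℝ)..s, D x t) +
      (∫ t in S..(s + S), D x t) := by
    rw [e1, e2]
    ring
  have hMS := hM S
  change |(∫ t in (0 : ℝ)..S, D (φ s x) t) - (a - D x s) * S| ≤ _
  rw [e3]
  refine (abs_add_le _ _).trans ?_
  have := abs_sub ((∫ t in (0 : ℝ)..S, D x t) - a * S) (∫ t in (0 : ℝ)..s, D x t)
  change |(∫ t in (0 : ℝ)..S, D x t) - a * S| ≤ M at hMS
  linarith

/-- continuity of the mean -/
theorem Ph.mean_near [T2Space Y] [NormalSpace Y] [LocallyCompactSpace Y] [T2Space N]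
    (h : Fl φ f) {Ψ : Y → T1} {D : Y → ℝ → ℝ} (P : Ph φ Ψ D) {x₀ : Y} {a₀ : ℝ}
    (hc : IsCompact (f ⁻¹' {f x₀})) (hs : SlopeIs (D x₀) 0)
    (ha₀ : SlopeIs (fun S => ∫ t in (0 : ℝ)..S, D x₀ t) a₀) {ε : ℝ} (hε : 0 < ε) :
    ∀ᶠ n in 𝓝 (f x₀), ∀ x, f x = n → ∀ a, SlopeIs (fun S => ∫ t in (0 : ℝ)..S, D x t) a →
      ∃ r : ℝ, |r| ≤ ε ∧ Ψ x + ((a : ℝ) : T1) = Ψ x₀ + ((a₀ : ℝ) : T1) + ((r : ℝ) : T1) := by
  obtain ⟨T, hT, hx⟩ := h.periodic hc
  obtain ⟨ψ, O, hψ, hO, hsub, hΨ, hψ0⟩ := P.exists_psi h hT hx hs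
  -- the integral over a period
  let J : Y → ℝ := fun z => ∫ t in (0 : ℝ)..T, ψ (φ t z)
  have hJc : Continuous J := by
    apply intervalIntegral.continuous_parametric_intervalIntegral_of_continuous' (μ := MeasureTheory.volume)
      (f := fun z t => ψ (φ t z))
    exact hψ.comp (h.cont.comp (continuous_snd.prodMk continuous_fst))
  have hcz : ∀ z, Continuous (fun t => ψ (φ t z)) := fun z => hψ.comp (h.orbit_cont z)
  have hJeq : ∀ z s, J (φ s z) = (∫ t in (0 : ℝ)..(s + T), ψ (φ t z)) - ∫ t in (0 : ℝ)..s, ψ (φ t z) := by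
    intro z s
    have h1 := intervalIntegral.integral_add_adjacent_intervals
      ((hcz z).intervalIntegrable 0 s) ((hcz z).intervalIntegrable s (s + T))
      (μ := MeasureTheory.volume)
    rw [← h1, add_sub_cancel_left]
    have h2 := intervalIntegral.integral_comp_add_left (fun t => ψ (φ t z)) s (a := 0) (b := T)
    rw [add_zero] at h2
    rw [← h2]
    simp only [J]
    congr 1
    funext t
    rw [← h.add, add_comm t s]
  have hper : Function.Periodic (fun t => ψ (φ t x₀)) T := by
    intro t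
    change ψ (φ (t + T) x₀) = ψ (φ t x₀)
    rw [h.add, hx]
  have hJ0 : ∀ s, J (φ s x₀) = J x₀ := by
    intro s
    rw [hJeq]
    have h1 := intervalIntegral.integral_add_adjacent_intervals
      ((hcz x₀).intervalIntegrable 0 s) ((hcz x₀).intervalIntegrable s (s + T))
      (μ := MeasureTheory.volume)
    rw [← h1, add_sub_cancel_left]
    have h2 := hper.intervalIntegral_add_eq s 0
    rw [zero_add] at h2
    exact h2
  -- the mean at the base point
  have hψx0 : ψ x₀ = 0 := by
    have := hψ0 0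
    rwa [h.zero, P.zero] at this
  have hA0 : a₀ * T = J x₀ := by
    have h1 : SlopeIs (fun S => ∫ t in (0 : ℝ)..S, D x₀ t) (J x₀ / T) := by
      have hper' : Function.Periodic (fun t => D x₀ t) T := fun t => P.per h hT hx hs t
      refine SlopeIs.of_periodic ?_ hT (fun S => ?_)
      · exact intervalIntegral.continuous_primitive
          (fun a b => (P.contt x₀).intervalIntegrable a b) 0
      · have h1 := intervalIntegral.integral_add_adjacent_intervals
          ((P.contt x₀).intervalIntegrable 0 S) ((P.contt x₀).intervalIntegrable S (S + T))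
          (μ := MeasureTheory.volume)
        rw [← h1]
        congr 1
        have h2 := hper'.intervalIntegral_add_eq S 0
        rw [zero_add] at h2
        change ∫ t in S..(S + T), D x₀ t = _
        rw [show (∫ t in S..(S + T), D x₀ t) = ∫ t in (0 : ℝ)..T, D x₀ t from h2]
        simp only [J]
        congr 1
        funext t
        exact (hψ0 t).symm
    have := ha₀.unique h1
    rw [this]
    field_simp
  let O' : Set Y := O ∩ {z | |J z - J x₀| < ε * T}
  have hO' : IsOpen O' := hO.inter (isOpen_lt (hJc.sub continuous_const).abs continuous_const)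
  have hsub' : f ⁻¹' {f x₀} ⊆ O' := by
    intro z hz
    refine ⟨hsub hz, ?_⟩
    obtain ⟨s, rfl⟩ := (h.fibre x₀ z).1 hz.symm
    change |J (φ s x₀) - J x₀| < ε * T
    rw [hJ0, sub_self, abs_zero]
    positivity
  obtain ⟨L, hL, hLO, hev⟩ := h.stable hc hO' hsub'
  filter_upwards [hev] with n hn x hxn a ha
  have hmem : ∀ t, φ t x ∈ L := fun t => hn (by
    change f (φ t x) = n
    rw [h.f_flow, hxn])
  have key : ∀ t, D x t = ψ (φ t x) - ψ x := by
    intro t
    have hu : Continuous (fun t => D x t - (ψ (φ t x) - ψ x)) :=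
      (P.contt x).sub ((hψ.comp (h.orbit_cont x)).sub continuous_const)
    have := int_const hu (fun t => ?_) t 0
    · simp only [P.zero, h.zero, sub_self] at this
      linarith
    · have h1 := hΨ _ (hLO (hmem t)).1
      have h2 := hΨ _ (hLO (hmem 0)).1
      rw [h.zero] at h2
      have h3 := P.eq x t
      rw [AddCircle.coe_sub, AddCircle.coe_sub]
      have h4 : ((D x t : ℝ) : T1) = Ψ (φ t x) - Ψ x := by rw [h3]; abel
      rw [h4, h1, h2]
      abel
  have hA : SlopeIs (fun S => ∫ t in (0 : ℝ)..S, ψ (φ t x)) (a + ψ x) := by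
    apply ha.congr
    intro S
    have e : ∀ t, D x t = ψ (φ t x) - ψ x := key
    simp_rw [e]
    rw [intervalIntegral.integral_sub ((hcz x).intervalIntegrable _ _)
      (continuous_const.intervalIntegrable _ _), intervalIntegral.integral_const, smul_eq_mul]
    ring
  have hw := hA.window (T := T) (c := J x₀) (δ := ε * T) (fun s => by
    change |(∫ t in (0 : ℝ)..(s + T), ψ (φ t x)) - (∫ t in (0 : ℝ)..s, ψ (φ t x)) - J x₀| ≤ ε * T
    rw [← hJeq]
    exact (hLO (hmem s)).2.le)
  refine ⟨a + ψ x - a₀, ?_, ?_⟩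
  · have e : (a + ψ x) * T - J x₀ = (a + ψ x - a₀) * T := by rw [← hA0]; ring
    rw [e, abs_mul, abs_of_pos hT] at hw
    exact le_of_mul_le_mul_right hw hT
  · have h2 := hΨ _ (hLO (hmem 0)).1
    rw [h.zero] at h2
    rw [h2, AddCircle.coe_sub, AddCircle.coe_add]
    abel

end Pool.Agent.V11201.FL
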