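import Mathlib

set_option autoImplicit false
open Set Topology Filter

namespace Pool.Agent.V11201.FL

/-- A continuous real flow `φ` on `Y` with open continuous surjection `f`, whose fibres are the
orbits. -/
structure Fl {Y N : Type*} [TopologicalSpace Y] [TopologicalSpace N] (φ : ℝ → Y → Y)
    (f : Y → N) : Prop where
  cont : Continuous (fun p : ℝ × Y => φ p.1 p.2)
  zero : ∀ y, φ 0 y = y
  add : ∀ s t y, φ (s + t) y = φ s (φ t y)
  fcont : Continuous f
  fopen : IsOpenMap f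
  fsurj : Function.Surjective f
  fibre : ∀ x y, f x = f y ↔ ∃ t, φ t x = y

variable {Y N : Type*} [TopologicalSpace Y] [TopologicalSpace N] {φ : ℝ → Y → Y} {f : Y → N}

theorem Fl.orbit_cont (h : Fl φ f) (y : Y) : Continuous (fun t => φ t y) :=
  h.cont.comp (continuous_id.prodMk continuous_const)

theorem Fl.time_cont (h : Fl φ f) (t : ℝ) : Continuous (φ t) :=
  h.cont.comp (continuous_const.prodMk continuous_id)

theorem Fl.f_flow (h : Fl φ f) (t : ℝ) (y : Y) : f (φ t y) = f y :=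
  ((h.fibre y (φ t y)).2 ⟨t, rfl⟩).symm

theorem Fl.inv (h : Fl φ f) (t : ℝ) (y : Y) : φ (-t) (φ t y) = y := by
  rw [← h.add, neg_add_cancel, h.zero]

theorem Fl.fibre_eq (h : Fl φ f) (y : Y) : f ⁻¹' {f y} = range (fun t => φ t y) := by
  ext z
  simp only [mem_preimage, mem_singleton_iff, mem_range]
  rw [eq_comm, h.fibre y z]

theorem Fl.conn (h : Fl φ f) (n : N) : IsPreconnected (f ⁻¹' {n}) := by
  obtain ⟨y, rfl⟩ := h.fsurj n
  rw [h.fibre_eq]
  exact isPreconnected_range (h.orbit_cont y)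

/-- compact orbits are stable -/
theorem Fl.stable [T2Space Y] [LocallyCompactSpace Y] [T2Space N] (h : Fl φ f) {y0 : Y}
    (hc : IsCompact (f ⁻¹' {f y0})) {O : Set Y} (hO : IsOpen O) (hsub : f ⁻¹' {f y0} ⊆ O) :
    ∃ L : Set Y, IsCompact L ∧ L ⊆ O ∧ ∀ᶠ n in 𝓝 (f y0), f ⁻¹' {n} ⊆ L := by
  obtain ⟨L, hL, h1, h2⟩ := exists_compact_between hc hO hsub
  refine ⟨L, hL, h2, ?_⟩
  have hfr : IsCompact (frontier (interior L)) := by
    apply hL.of_isClosed_subset isClosed_frontier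
    exact (frontier_subset_closure.trans (closure_mono interior_subset)).trans
      hL.isClosed.closure_subset
  have hcl : IsClosed (f '' frontier (interior L)) := (hfr.image h.fcont).isClosed
  have hnot : f y0 ∉ f '' frontier (interior L) := by
    rintro ⟨z, hz, hzf⟩
    have : z ∈ interior L := h1 hzf
    have hfe := (isOpen_interior (s := L)).frontier_eq
    rw [hfe] at hz
    exact hz.2 this
  have e1 : ∀ᶠ n in 𝓝 (f y0), n ∉ f '' frontier (interior L) := hcl.isOpen_compl.mem_nhds hnot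
  have e2 : ∀ᶠ n in 𝓝 (f y0), n ∈ f '' interior L :=
    (h.fopen _ isOpen_interior).mem_nhds ⟨y0, h1 rfl, rfl⟩
  filter_upwards [e1, e2] with n hn1 hn2
  obtain ⟨z, hz, rfl⟩ := hn2
  by_contra hcon
  obtain ⟨w, hw, hwL⟩ := not_subset.1 hcon
  have hfe := (isOpen_interior (s := L)).frontier_eq
  have hcov : f ⁻¹' {f z} ⊆ interior L ∪ (closure (interior L))ᶜ := by
    intro v hv
    by_contra hv'
    simp only [mem_union, mem_compl_iff, not_or, not_not] at hv'
    exact hn1 ⟨v, by rw [hfe]; exact ⟨hv'.2, hv'.1⟩, hv⟩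
  obtain ⟨v, -, hv1, hv2⟩ := h.conn (f z) _ _ isOpen_interior isClosed_closure.isOpen_compl hcov
    ⟨z, rfl, hz⟩ ⟨w, hw, fun hw' => hwL (by
      have : closure (interior L) ⊆ L := (closure_mono interior_subset).trans
        hL.isClosed.closure_subset
      exact this hw')⟩
  exact hv2 (subset_closure hv1)

theorem Fl.compact_nhds [T2Space Y] [LocallyCompactSpace Y] [T2Space N] (h : Fl φ f) {y0 : Y}
    (hc : IsCompact (f ⁻¹' {f y0})) : ∀ᶠ n in 𝓝 (f y0), IsCompact (f ⁻¹' {n}) := by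
  obtain ⟨L, hL, -, h2⟩ := h.stable hc isOpen_univ (subset_univ _)
  filter_upwards [h2] with n hn
  exact hL.of_isClosed_subset (isClosed_singleton.preimage h.fcont) hn

theorem Fl.isClosed_noncompact [T2Space Y] [LocallyCompactSpace Y] [T2Space N] (h : Fl φ f) :
    IsClosed {n | ¬ IsCompact (f ⁻¹' {n})} := by
  rw [← isOpen_compl_iff, isOpen_iff_mem_nhds]
  intro m hm
  obtain ⟨y, rfl⟩ := h.fsurj m
  have hc : IsCompact (f ⁻¹' {f y}) := by
    by_contra hcon
    exact hm hcon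
  filter_upwards [h.compact_nhds hc] with n hn hn'
  exact hn' hn

/-- free orbits leave compact sets -/
theorem Fl.proper [T2Space Y] [LocallyCompactSpace Y] [T1Space N] (h : Fl φ f) {x : Y}
    (hfree : ∀ t, φ t x = x → t = 0) {K : Set Y} (hK : IsCompact K) :
    ∃ M : ℝ, ∀ t, φ t x ∈ K → |t| ≤ M := by
  classical
  have hinj : ∀ s t, φ s x = φ t x → s = t := by
    intro s t hst
    have : φ (-t + s) x = x := by rw [h.add, hst, h.inv]
    have := hfree _ this
    linarith
  have hOcl : IsClosed (f ⁻¹' {f x}) := isClosed_singleton.preimage h.fcont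
  have : LocallyCompactSpace (f ⁻¹' {f x}) := hOcl.locallyCompactSpace
  have : Nonempty (f ⁻¹' {f x}) := ⟨⟨x, rfl⟩⟩
  let A : ℕ → Set (f ⁻¹' {f x}) := fun k => {z | ∃ t : ℝ, |t| ≤ k ∧ φ t x = z.1}
  have hAcl : ∀ k, IsClosed (A k) := by
    intro k
    have : A k = Subtype.val ⁻¹' ((fun t => φ t x) '' Icc (-(k : ℝ)) k) := by
      ext z
      simp only [A, mem_ofPred_eq, mem_preimage, mem_image, abs_le, mem_Icc]
    rw [this]
    exact ((isCompact_Icc.image (h.orbit_cont x)).isClosed).preimage continuous_subtype_val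
  have hAun : ⋃ k, A k = univ := by
    rw [eq_univ_iff_forall]
    intro z
    obtain ⟨t, ht⟩ := (h.fibre x z.1).1 z.2.symm
    obtain ⟨k, hk⟩ := exists_nat_ge |t|
    exact mem_iUnion.2 ⟨k, t, hk, ht⟩
  obtain ⟨k, z, hz⟩ := nonempty_interior_of_iUnion_of_closed hAcl hAun
  obtain ⟨s, hs⟩ := (h.fibre x z.1).1 z.2.symm
  rw [mem_interior_iff_mem_nhds, nhds_subtype_eq_comap, mem_comap] at hz
  obtain ⟨U, hU, hUA⟩ := hz
  by_contra hcon
  push Not at hcon
  choose! t ht hM using fun n : ℕ => hcon n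
  have hmem : ∀ n : ℕ, φ (t n) x ∈ K ∩ f ⁻¹' {f x} := fun n => ⟨ht n, h.f_flow _ _⟩
  obtain ⟨y, ⟨-, hyO⟩, hcl⟩ := (hK.inter_right hOcl) (f := map (fun n : ℕ => φ (t n) x) atTop)
    (by rw [Filter.le_principal_iff]; exact Filter.mem_map.2 (Filter.Eventually.of_forall hmem))
  obtain ⟨r, hr⟩ := (h.fibre x y).1 hyO.symm
  have hyz : φ (s - r) y = z.1 := by rw [← hr, ← h.add, sub_add_cancel, hs]
  have hU' : (φ (s - r)) ⁻¹' U ∈ 𝓝 y := by
    apply (h.time_cont _).continuousAt
    rw [hyz]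
    exact hU
  have hfreq : ∃ᶠ n in atTop, φ (t n) x ∈ (φ (s - r)) ⁻¹' U := MapClusterPt.frequently hcl hU'
  obtain ⟨n, hn, hn'⟩ := (Filter.frequently_atTop.1 hfreq) (⌈(k : ℝ) + |s - r|⌉₊ + 1)
  have h1 : φ (s - r + t n) x ∈ U := by rw [h.add]; exact hn'
  have h2 : (⟨φ (s - r + t n) x, h.f_flow _ _⟩ : f ⁻¹' {f x}) ∈ A k := hUA h1
  obtain ⟨t', ht', ht''⟩ := h2
  have h3 := hinj _ _ ht''
  have h4 : |t n| ≤ k + |s - r| := by
    have : t n = t' - (s - r) := by linarith
    rw [this]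
    exact (abs_sub _ _).trans (add_le_add ht' le_rfl)
  have h5 := hM n
  have h6 : (k : ℝ) + |s - r| ≤ n := by
    have h7 := Nat.le_ceil ((k : ℝ) + |s - r|)
    have h8 : ((⌈(k : ℝ) + |s - r|⌉₊ + 1 : ℕ) : ℝ) ≤ n := by exact_mod_cast hn
    push_cast at h8
    linarith
  linarith

theorem Fl.compact_of_periodic (h : Fl φ f) {x : Y} {T : ℝ} (hT : T ≠ 0) (hx : φ T x = x) :
    IsCompact (f ⁻¹' {f x}) := by
  have hz : ∀ n : ℕ, φ (n * T) x = x := by
    intro n
    induction n with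
    | zero => simp [h.zero]
    | succ n ih =>
      have : ((n + 1 : ℕ) : ℝ) * T = n * T + T := by push_cast; ring
      rw [this, h.add, hx, ih]
  have hzz : ∀ n : ℤ, φ (n * T) x = x := by
    intro n
    obtain ⟨k, rfl | rfl⟩ := n.eq_nat_or_neg
    · exact_mod_cast hz k
    · have := h.inv (k * T) x
      rw [hz] at this
      have e : ((-(k : ℤ) : ℤ) : ℝ) * T = -(k * T) := by push_cast; ring
      rw [e]
      exact this
  have : f ⁻¹' {f x} = (fun t => φ t x) '' Icc (-|T|) |T| := by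
    rw [h.fibre_eq]
    apply Subset.antisymm
    · rintro _ ⟨t, rfl⟩
      refine ⟨t - ⌊t / T⌋ * T, ?_, ?_⟩
      · have h1 : t - ⌊t / T⌋ * T = Int.fract (t / T) * T := by
          rw [← Int.self_sub_floor]
          field_simp
        rw [h1, mem_Icc, ← abs_le, abs_mul, abs_of_nonneg (Int.fract_nonneg _)]
        exact mul_le_of_le_one_left (abs_nonneg _) (Int.fract_lt_one _).le
      · change φ _ x = φ t x
        have e : φ t x = φ (t - ⌊t / T⌋ * T + ⌊t / T⌋ * T) x := by rw [sub_add_cancel]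
        rw [e, h.add, hzz]
    · rintro _ ⟨t, -, rfl⟩
      exact ⟨t, rfl⟩
  rw [this]
  exact isCompact_Icc.image (h.orbit_cont x)

theorem Fl.free_of_noncompact (h : Fl φ f) {x : Y} (hx : ¬ IsCompact (f ⁻¹' {f x})) :
    ∀ t, φ t x = x → t = 0 := by
  intro t ht
  by_contra hne
  exact hx (h.compact_of_periodic hne ht)

theorem Fl.periodic [T2Space Y] [LocallyCompactSpace Y] [T1Space N] (h : Fl φ f) {x : Y}
    (hx : IsCompact (f ⁻¹' {f x})) : ∃ T > 0, φ T x = x := by
  by_contra hcon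
  push Not at hcon
  have hfree : ∀ t, φ t x = x → t = 0 := by
    intro t ht
    rcases lt_trichotomy t 0 with h1 | h1 | h1
    · exfalso
      apply hcon (-t) (by linarith)
      conv_lhs => rw [← ht]
      rw [h.inv]
    · exact h1
    · exact absurd ht (hcon t h1)
  obtain ⟨M, hM⟩ := h.proper hfree hx
  have := hM (|M| + 1) (h.f_flow _ _)
  rw [abs_of_nonneg (by positivity)] at this
  linarith [le_abs_self M]

end Pool.Agent.V11201.FL
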