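import Pool.Agent.V11201.FL.Comp

set_option autoImplicit false
open Set Topology Filter MeasureTheory

namespace Pool.Agent.V11201.FL

variable {Y N : Type*} [TopologicalSpace Y] [TopologicalSpace N] {φ : ℝ → Y → Y} {f : Y → N}

/-- the first time at which the orbit is in `{ρ ≤ r}` -/
noncomputable def ent (φ : ℝ → Y → Y) (ρ : Y → ℝ) (x : Y) (r : ℝ) : ℝ :=
  sInf {t | ρ (φ t x) ≤ r}

/-- data for the study of the noncompact orbits -/
structure LineData (φ : ℝ → Y → Y) (f : Y → N) (ρ : Y → ℝ) (R : ℝ) : Prop where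
  fl : Fl φ f
  cont : Continuous ρ
  comp : ∀ (K : Set N) (r : ℝ), IsCompact K → IsCompact (f ⁻¹' K ∩ {z | ρ z ≤ r})
  meets : ∀ x, ¬ IsCompact (f ⁻¹' {f x}) → ∃ t, ρ (φ t x) < R

variable {ρ : Y → ℝ} {R : ℝ}

theorem LineData.nonempty (h : LineData φ f ρ R) {x : Y} (hx : ¬ IsCompact (f ⁻¹' {f x})) {r : ℝ}
    (hr : R ≤ r) : {t | ρ (φ t x) ≤ r}.Nonempty := by
  obtain ⟨t, ht⟩ := h.meets x hx
  exact ⟨t, (ht.le.trans hr)⟩

theorem LineData.bdd [T2Space Y] [LocallyCompactSpace Y] [T1Space N] (h : LineData φ f ρ R) {x : Y}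
    (hx : ¬ IsCompact (f ⁻¹' {f x})) (r : ℝ) : BddBelow {t | ρ (φ t x) ≤ r} := by
  obtain ⟨M, hM⟩ := h.fl.proper (h.fl.free_of_noncompact hx) (h.comp {f x} r isCompact_singleton)
  refine ⟨-M, fun t ht => ?_⟩
  have := hM t ⟨h.fl.f_flow t x, ht⟩
  exact (abs_le.1 this).1

theorem LineData.closed (h : LineData φ f ρ R) (x : Y) (r : ℝ) : IsClosed {t | ρ (φ t x) ≤ r} :=
  isClosed_le (h.cont.comp (h.fl.orbit_cont x)) continuous_const

theorem LineData.ent_mem [T2Space Y] [LocallyCompactSpace Y] [T1Space N] (h : LineData φ f ρ R)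
    {x : Y} (hx : ¬ IsCompact (f ⁻¹' {f x})) {r : ℝ} (hr : R ≤ r) :
    ρ (φ (ent φ ρ x r) x) ≤ r :=
  (h.closed x r).csInf_mem (h.nonempty hx hr) (h.bdd hx r)

theorem LineData.ent_le [T2Space Y] [LocallyCompactSpace Y] [T1Space N] (h : LineData φ f ρ R)
    {x : Y} (hx : ¬ IsCompact (f ⁻¹' {f x})) {r t : ℝ} (ht : ρ (φ t x) ≤ r) :
    ent φ ρ x r ≤ t := csInf_le (h.bdd hx r) ht

theorem LineData.le_ent [T2Space Y] [LocallyCompactSpace Y] [T1Space N] (h : LineData φ f ρ R)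
    {x : Y} (hx : ¬ IsCompact (f ⁻¹' {f x})) {r b : ℝ} (hr : R ≤ r)
    (hb : ∀ t, ρ (φ t x) ≤ r → b ≤ t) : b ≤ ent φ ρ x r := hb _ (h.ent_mem hx hr)

theorem LineData.ent_anti [T2Space Y] [LocallyCompactSpace Y] [T1Space N] (h : LineData φ f ρ R)
    {x : Y} (hx : ¬ IsCompact (f ⁻¹' {f x})) {r r' : ℝ} (hr : R ≤ r) (hrr : r ≤ r') :
    ent φ ρ x r' ≤ ent φ ρ x r :=
  h.ent_le hx ((h.ent_mem hx hr).trans hrr)

theorem LineData.nc_flow (h : LineData φ f ρ R) {x : Y} (hx : ¬ IsCompact (f ⁻¹' {f x})) (s : ℝ) :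
    ¬ IsCompact (f ⁻¹' {f (φ s x)}) := by
  rwa [h.fl.f_flow]

theorem LineData.ent_flow [T2Space Y] [LocallyCompactSpace Y] [T1Space N] (h : LineData φ f ρ R)
    {x : Y} (hx : ¬ IsCompact (f ⁻¹' {f x})) {r : ℝ} (hr : R ≤ r) (s : ℝ) :
    ent φ ρ (φ s x) r = ent φ ρ x r - s := by
  apply le_antisymm
  · apply h.ent_le (h.nc_flow hx s)
    rw [← h.fl.add, sub_add_cancel]
    exact h.ent_mem hx hr
  · apply h.le_ent (h.nc_flow hx s) hr
    intro t ht
    rw [← h.fl.add] at ht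
    have := h.ent_le hx ht
    linarith

/-- the averaged real increment -/
noncomputable def AA (φ : ℝ → Y → Y) (ρ : Y → ℝ) (R : ℝ) (D : Y → ℝ → ℝ) (x : Y) : ℝ :=
  ∫ r in R..(R + 1), D x (ent φ ρ x r)

theorem LineData.meas [T2Space Y] [LocallyCompactSpace Y] [T1Space N] (h : LineData φ f ρ R)
    {Ψ : Y → T1} {D : Y → ℝ → ℝ} (P : Ph φ Ψ D) {x : Y} (hx : ¬ IsCompact (f ⁻¹' {f x})) :
    AEStronglyMeasurable (fun r => D x (ent φ ρ x r)) (volume.restrict (uIoc R (R + 1))) := by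
  have h1 : AEMeasurable (fun r => ent φ ρ x r) (volume.restrict (uIoc R (R + 1))) := by
    apply aemeasurable_restrict_of_antitoneOn measurableSet_uIoc
    intro r hr r' hr' hrr
    rw [uIoc_of_le (by linarith)] at hr
    exact h.ent_anti hx hr.1.le hrr
  exact ((P.contt x).measurable.comp_aemeasurable h1).aestronglyMeasurable

theorem LineData.integrable [T2Space Y] [LocallyCompactSpace Y] [T1Space N] (h : LineData φ f ρ R)
    {Ψ : Y → T1} {D : Y → ℝ → ℝ} (P : Ph φ Ψ D) {x : Y} (hx : ¬ IsCompact (f ⁻¹' {f x})) :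
    IntervalIntegrable (fun r => D x (ent φ ρ x r)) volume R (R + 1) := by
  obtain ⟨B, hB⟩ := (isCompact_Icc (a := ent φ ρ x (R + 1)) (b := ent φ ρ x R)).exists_bound_of_continuousOn
    (P.contt x).continuousOn
  rw [intervalIntegrable_iff]
  have : IsFiniteMeasure (volume.restrict (uIoc R (R + 1))) := ⟨by simp⟩
  refine Integrable.of_bound (h.meas P hx) B ?_
  rw [ae_restrict_iff' measurableSet_uIoc]
  refine Eventually.of_forall fun r hr => ?_
  rw [uIoc_of_le (by linarith)] at hr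
  exact hB _ ⟨h.ent_anti hx hr.1.le hr.2, h.ent_anti hx le_rfl hr.1.le⟩

theorem LineData.AA_flow [T2Space Y] [LocallyCompactSpace Y] [T1Space N] (h : LineData φ f ρ R)
    {Ψ : Y → T1} {D : Y → ℝ → ℝ} (P : Ph φ Ψ D) {x : Y} (hx : ¬ IsCompact (f ⁻¹' {f x})) (s : ℝ) :
    AA φ ρ R D (φ s x) = AA φ ρ R D x - D x s := by
  have e : ∫ r in R..(R + 1), D (φ s x) (ent φ ρ (φ s x) r) =
      ∫ r in R..(R + 1), (D x (ent φ ρ x r) - D x s) := by
    apply intervalIntegral.integral_congr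
    intro r hr
    rw [uIcc_of_le (by linarith)] at hr
    simp only
    rw [h.ent_flow hx hr.1]
    have := P.cocycle h.fl x s (ent φ ρ x r - s)
    rw [add_sub_cancel] at this
    linarith
  unfold AA
  rw [e, intervalIntegral.integral_sub (h.integrable P hx) intervalIntegrable_const,
    intervalIntegral.integral_const, add_sub_cancel_left, one_smul]

/-- `r` is a regular level for the orbit of `x` -/
def Reg (φ : ℝ → Y → Y) (ρ : Y → ℝ) (x : Y) (r : ℝ) : Prop :=
  ∀ ε > 0, ∃ t, ent φ ρ x r ≤ t ∧ t < ent φ ρ x r + ε ∧ ρ (φ t x) < r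

theorem LineData.reg_countable [T2Space Y] [LocallyCompactSpace Y] [T1Space N]
    (h : LineData φ f ρ R) {x : Y} (hx : ¬ IsCompact (f ⁻¹' {f x})) :
    {r | R < r ∧ ¬ Reg φ ρ x r}.Countable := by
  have hanti : Antitone (fun r => ent φ ρ x (max r R)) := by
    intro r r' hrr
    exact h.ent_anti hx (le_max_right _ _) (max_le_max_right _ hrr)
  refine hanti.countable_not_continuousAt.mono ?_
  rintro r ⟨hr, hreg⟩ hcont
  apply hreg
  intro ε hε
  have h1 : ∀ᶠ r' in 𝓝 r, ent φ ρ x (max r' R) < ent φ ρ x (max r R) + ε :=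
    hcont.eventually_lt continuousAt_const (by linarith)
  have h2 : ∀ᶠ r' in 𝓝[<] r, R < r' := by
    apply mem_nhdsWithin_of_mem_nhds
    exact lt_mem_nhds hr
  have h3 : ∀ᶠ r' in 𝓝[<] r, r' < r := self_mem_nhdsWithin
  obtain ⟨r', ⟨h4, h5⟩, h6⟩ := (((h1.filter_mono nhdsWithin_le_nhds).and h2).and h3).exists
  rw [max_eq_left h5.le, max_eq_left hr.le] at h4
  exact ⟨ent φ ρ x r', h.ent_anti hx h5.le h6.le, h4, (h.ent_mem hx h5.le).trans_lt h6⟩

theorem LineData.reg_flow [T2Space Y] [LocallyCompactSpace Y] [T1Space N] (h : LineData φ f ρ R)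
    {x : Y} (hx : ¬ IsCompact (f ⁻¹' {f x})) {r : ℝ} (hr : R ≤ r) (hreg : Reg φ ρ x r) (s : ℝ) :
    Reg φ ρ (φ s x) r := by
  intro ε hε
  obtain ⟨t, h1, h2, h3⟩ := hreg ε hε
  refine ⟨t - s, ?_, ?_, ?_⟩
  · rw [h.ent_flow hx hr]; linarith
  · rw [h.ent_flow hx hr]; linarith
  · rw [← h.fl.add, sub_add_cancel]; exact h3

/-- convergence of the first entrance points -/
theorem LineData.tendsto_first [T2Space Y] [LocallyCompactSpace Y] [T2Space N]
    (h : LineData φ f ρ R) {x : Y} (hx : ¬ IsCompact (f ⁻¹' {f x})) {r : ℝ} (hr : R ≤ r)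
    (hreg : Reg φ ρ x r) (he : ent φ ρ x r = 0) {u : ℕ → Y}
    (hu : ∀ k, ¬ IsCompact (f ⁻¹' {f (u k)})) (hue : ∀ k, ent φ ρ (u k) r = 0)
    (hlim : Tendsto (fun k => f (u k)) atTop (𝓝 (f x))) : Tendsto u atTop (𝓝 x) := by
  have hK := hlim.isCompact_insert_range
  have hcomp := h.comp _ r hK
  refine hcomp.tendsto_nhds_of_unique_mapClusterPt (Eventually.of_forall fun k => ?_) ?_
  · refine ⟨mem_insert_of_mem _ ⟨k, rfl⟩, ?_⟩
    have := h.ent_mem (hu k) hr
    rw [hue, h.fl.zero] at this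
    exact this
  · rintro z ⟨-, hz⟩ hcl
    have hfz : f z = f x := by
      have h1 : MapClusterPt (f z) atTop (fun k => f (u k)) :=
        hcl.continuousAt_comp (h.fl.fcont.continuousAt)
      by_contra hne
      obtain ⟨U, V, hU, hV, hUV⟩ := t2_separation_nhds hne
      have h2 := h1.frequently hU
      have h3 := hlim hV
      obtain ⟨k, hk1, hk2⟩ := (h2.and_eventually h3).exists
      exact disjoint_left.1 hUV hk1 hk2
    obtain ⟨s, rfl⟩ := (h.fl.fibre x z).1 hfz.symm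
    have hs : 0 ≤ s := by
      rw [← he]
      exact h.ent_le hx hz
    rcases hs.eq_or_lt with h0 | h0
    · rw [← h0, h.fl.zero]
    · exfalso
      obtain ⟨t, -, ht2, ht3⟩ := hreg s h0
      rw [he, zero_add] at ht2
      have hO : IsOpen {w | ρ (φ (t - s) w) < r} :=
        isOpen_lt (h.cont.comp (h.fl.time_cont _)) continuous_const
      have hmem : φ s x ∈ {w | ρ (φ (t - s) w) < r} := by
        change ρ (φ (t - s) (φ s x)) < r
        rw [← h.fl.add, sub_add_cancel]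
        exact ht3
      obtain ⟨k, hk⟩ := (hcl.frequently (hO.mem_nhds hmem)).exists
      have := h.ent_le (hu k) (r := r) (t := t - s) (le_of_lt hk)
      rw [hue] at this
      linarith

theorem LineData.tendsto_ent [T2Space Y] [LocallyCompactSpace Y] [T2Space N]
    (h : LineData φ f ρ R) {x : Y} (hx : ¬ IsCompact (f ⁻¹' {f x})) {r : ℝ} (hr : R ≤ r)
    (hreg : Reg φ ρ x r) {u : ℕ → Y} (hu : ∀ k, ¬ IsCompact (f ⁻¹' {f (u k)}))
    (hue : ∀ k, 0 ≤ ent φ ρ (u k) r) (hlim : Tendsto u atTop (𝓝 x)) :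
    Tendsto (fun k => ent φ ρ (u k) r) atTop (𝓝 (ent φ ρ x r)) := by
  rw [tendsto_order]
  constructor
  · intro b hb
    have hO : ∀ᶠ z in 𝓝 x, ∀ t ∈ Icc 0 b, r < ρ (φ t z) := by
      apply isCompact_Icc.eventually_forall_of_forall_eventually
      intro t ht
      have hlt : r < ρ (φ t x) := by
        by_contra hcon
        push Not at hcon
        have := h.ent_le hx hcon
        linarith [ht.2]
      have hc : Continuous (fun z : Y × ℝ => ρ (φ z.2 z.1)) :=
        h.cont.comp (h.fl.cont.comp (continuous_snd.prodMk continuous_fst))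
      exact (isOpen_lt continuous_const hc).mem_nhds hlt
    filter_upwards [hlim.eventually hO] with k hk
    by_contra hcon
    push Not at hcon
    have h1 := hk _ ⟨hue k, hcon⟩
    have h2 := h.ent_mem (hu k) hr
    linarith
  · intro b hb
    obtain ⟨t, -, ht2, ht3⟩ := hreg (b - ent φ ρ x r) (by linarith)
    have hO : IsOpen {w | ρ (φ t w) < r} :=
      isOpen_lt (h.cont.comp (h.fl.time_cont _)) continuous_const
    filter_upwards [hlim.eventually (hO.mem_nhds ht3)] with k hk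
    have := h.ent_le (hu k) (r := r) (t := t) (le_of_lt hk)
    linarith

/-- The averaged phase is continuous on the set of noncompact orbits. -/
theorem LineData.exists_section [T2Space Y] [LocallyCompactSpace Y] [T2Space N]
    [FirstCountableTopology N] (h : LineData φ f ρ R) {Ψ : Y → T1} {D : Y → ℝ → ℝ}
    (P : Ph φ Ψ D) : ∃ g : N → T1, ContinuousOn g {n | ¬ IsCompact (f ⁻¹' {n})} ∧
      ∀ x, ¬ IsCompact (f ⁻¹' {f x}) → g (f x) = Ψ x + ((AA φ ρ R D x : ℝ) : T1) := by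
  have hwd : ∀ x y, ¬ IsCompact (f ⁻¹' {f x}) → f x = f y →
      Ψ x + ((AA φ ρ R D x : ℝ) : T1) = Ψ y + ((AA φ ρ R D y : ℝ) : T1) := by
    intro x y hx hxy
    obtain ⟨s, rfl⟩ := (h.fl.fibre x y).1 hxy
    rw [h.AA_flow P hx, P.eq, AddCircle.coe_sub]
    abel
  let σ := Function.surjInv h.fl.fsurj
  have hσ : ∀ n, f (σ n) = n := Function.surjInv_eq h.fl.fsurj
  let g : N → T1 := fun n => Ψ (σ n) + ((AA φ ρ R D (σ n) : ℝ) : T1)
  have hg : ∀ x, ¬ IsCompact (f ⁻¹' {f x}) → g (f x) = Ψ x + ((AA φ ρ R D x : ℝ) : T1) :=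
    fun x hx => (hwd x _ hx (hσ _).symm).symm
  refine ⟨g, ?_, hg⟩
  intro n₀ hn₀
  -- the base point
  obtain ⟨x', rfl⟩ := h.fl.fsurj n₀
  obtain ⟨r₀, hr₀, hr₀'⟩ : ∃ r₀ ∈ Ioo (R + 1) (R + 2), Reg φ ρ x' r₀ := by
    by_contra hcon
    push Not at hcon
    have h1 : Ioo (R + 1) (R + 2) ⊆ {r | R < r ∧ ¬ Reg φ ρ x' r} := fun r hr =>
      ⟨by linarith [hr.1], hcon r hr⟩
    have h2 := (h.reg_countable hn₀).mono h1
    exact (Cardinal.Real.Ioo_countable_iff.1 h2).not_gt (by linarith)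
  have hRr₀ : R ≤ r₀ := by linarith [hr₀.1]
  set x := φ (ent φ ρ x' r₀) x' with hxdef
  have hfx : f x = f x' := h.fl.f_flow _ _
  have hx : ¬ IsCompact (f ⁻¹' {f x}) := by rw [hfx]; exact hn₀
  have hex : ent φ ρ x r₀ = 0 := by
    rw [hxdef, h.ent_flow hn₀ hRr₀, sub_self]
  have hregx : Reg φ ρ x r₀ := h.reg_flow hn₀ hRr₀ hr₀' _
  rw [← hfx]
  apply tendsto_of_seq_tendsto
  intro u hu
  have hu1 : Tendsto u atTop (𝓝 (f x)) := hu.mono_right nhdsWithin_le_nhds
  have hu2 : ∀ᶠ k in atTop, ¬ IsCompact (f ⁻¹' {u k}) := hu.eventually self_mem_nhdsWithin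
  -- replace the bad members of the sequence
  classical
  let v : ℕ → N := fun k => if ¬ IsCompact (f ⁻¹' {u k}) then u k else f x
  have hv : ∀ k, ¬ IsCompact (f ⁻¹' {v k}) := by
    intro k
    by_cases hk : ¬ IsCompact (f ⁻¹' {u k})
    · simp only [v, hk, not_false_eq_true, if_true]
    · simp only [v, hk, if_false]
      exact hx
  have huv : ∀ᶠ k in atTop, v k = u k := by
    filter_upwards [hu2] with k hk
    simp only [v, hk, not_false_eq_true, if_true]
  have hvlim : Tendsto v atTop (𝓝 (f x)) := hu1.congr' (huv.mono fun k hk => hk.symm)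
  suffices hs : Tendsto (fun k => g (v k)) atTop (𝓝 (g (f x))) from
    hs.congr' (huv.mono fun k hk => by simp only [Function.comp, hk])
  -- the first entrance points
  let w : ℕ → Y := fun k => φ (ent φ ρ (σ (v k)) r₀) (σ (v k))
  have hfw : ∀ k, f (w k) = v k := fun k => by simp only [w]; rw [h.fl.f_flow, hσ]
  have hwn : ∀ k, ¬ IsCompact (f ⁻¹' {f (w k)}) := fun k => by rw [hfw]; exact hv k
  have hσn : ∀ k, ¬ IsCompact (f ⁻¹' {f (σ (v k))}) := fun k => by rw [hσ]; exact hv k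
  have hwe : ∀ k, ent φ ρ (w k) r₀ = 0 := fun k => by
    simp only [w]
    rw [h.ent_flow (hσn k) hRr₀, sub_self]
  have hwlim : Tendsto w atTop (𝓝 x) := by
    apply h.tendsto_first hx hRr₀ hregx hex hwn hwe
    simpa only [hfw] using hvlim
  have hgw : ∀ k, g (v k) = Ψ (w k) + ((AA φ ρ R D (w k) : ℝ) : T1) := by
    intro k
    rw [← hg _ (hwn k), hfw]
  simp_rw [hgw]
  rw [hg x hx]
  refine (P.contP.continuousAt.tendsto.comp hwlim).add ?_
  refine ((AddCircle.continuous_mk' 1).continuousAt.tendsto).comp ?_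
  -- dominated convergence
  obtain ⟨T₁, hT₁⟩ := h.meets x hx
  have hT₁' : ∀ᶠ k in atTop, ρ (φ T₁ (w k)) < R :=
    hwlim.eventually ((isOpen_lt (h.cont.comp (h.fl.time_cont _)) continuous_const).mem_nhds hT₁)
  have hcK : IsCompact ((insert x (range w)) ×ˢ Icc 0 T₁) :=
    hwlim.isCompact_insert_range.prod isCompact_Icc
  obtain ⟨B, hB⟩ := hcK.exists_bound_of_continuousOn P.contD.continuousOn
  have hnn : ∀ k, ∀ r, R ≤ r → r ≤ r₀ → 0 ≤ ent φ ρ (w k) r := by
    intro k r hr hr'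
    rw [← hwe k]
    exact h.ent_anti (hwn k) hr hr'
  unfold AA
  apply intervalIntegral.tendsto_integral_filter_of_dominated_convergence (fun _ => B)
  · exact Eventually.of_forall fun k => h.meas P (hwn k)
  · filter_upwards [hT₁'] with k hk
    refine Eventually.of_forall fun r hr => ?_
    rw [uIoc_of_le (by linarith)] at hr
    refine hB (w k, ent φ ρ (w k) r) ⟨mem_insert_of_mem _ ⟨k, rfl⟩, hnn k r hr.1.le ?_, ?_⟩
    · linarith [hr.2, hr₀.1]
    · exact h.ent_le (hwn k) (hk.le.trans hr.1.le)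
  · exact intervalIntegrable_const
  · have hae : ∀ᵐ r : ℝ, r ∉ {r | R < r ∧ ¬ Reg φ ρ x r} := (h.reg_countable hx).ae_notMem _
    filter_upwards [hae] with r hr hr'
    rw [uIoc_of_le (by linarith)] at hr'
    have hreg : Reg φ ρ x r := by
      by_contra hcon
      exact hr ⟨hr'.1, hcon⟩
    have h1 := h.tendsto_ent hx hr'.1.le hreg hwn
      (fun k => hnn k r hr'.1.le (by linarith [hr'.2, hr₀.1])) hwlim
    exact (P.contD.continuousAt (x := (x, ent φ ρ x r))).tendsto.comp (hwlim.prodMk_nhds h1)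

end Pool.Agent.V11201.FL
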