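import Pool.Agent.V11201.FL.Flow

set_option autoImplicit false
open Set Topology Filter

namespace Pool.Agent.V11201.FL

/-- the circle `ℝ/ℤ` -/
abbrev T1 := AddCircle (1 : ℝ)

/-- the function `V` stays at bounded distance from the linear function of slope `b` -/
def SlopeIs (V : ℝ → ℝ) (b : ℝ) : Prop := ∃ M : ℝ, ∀ t, |V t - b * t| ≤ M

theorem SlopeIs.unique {V : ℝ → ℝ} {a b : ℝ} (ha : SlopeIs V a) (hb : SlopeIs V b) : a = b := by
  obtain ⟨M, hM⟩ := ha
  obtain ⟨M', hM'⟩ := hb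
  by_contra hne
  have hpos : 0 < |a - b| := abs_pos.2 (sub_ne_zero.2 hne)
  obtain ⟨n, hn⟩ := exists_nat_gt ((M + M') / |a - b|)
  rw [div_lt_iff₀ hpos] at hn
  have h1 := hM n
  have h2 := hM' n
  have h3 : |a - b| * n ≤ M + M' := by
    have : (a - b) * n = (V n - b * n) - (V n - a * n) := by ring
    have h4 : |(a - b) * n| ≤ M' + M := by
      rw [this]
      exact (abs_sub _ _).trans (add_le_add h2 h1)
    rw [abs_mul, Nat.abs_cast] at h4
    linarith
  linarith

theorem SlopeIs.of_periodic {V : ℝ → ℝ} (hV : Continuous V) {T c : ℝ} (hT : 0 < T)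
    (h : ∀ t, V (t + T) = V t + c) : SlopeIs V (c / T) := by
  have hper : Function.Periodic (fun t => V t - c / T * t) T := by
    intro t
    change V (t + T) - c / T * (t + T) = V t - c / T * t
    rw [h]
    field_simp
    ring
  obtain ⟨M, hM⟩ := (isCompact_Icc (a := (0 : ℝ)) (b := T)).exists_bound_of_continuousOn
    (f := fun t => V t - c / T * t) (by fun_prop)
  refine ⟨M, fun t => ?_⟩
  obtain ⟨y, hy, hyt⟩ := hper.exists_mem_Ico₀ hT t
  have := hM y ⟨hy.1, hy.2.le⟩
  rw [Real.norm_eq_abs] at this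
  have hyt' : V t - c / T * t = V y - c / T * y := hyt
  rw [hyt']
  exact this

theorem SlopeIs.window {V : ℝ → ℝ} {b T c δ : ℝ} (hV : SlopeIs V b)
    (h : ∀ s, |V (s + T) - V s - c| ≤ δ) : |b * T - c| ≤ δ := by
  obtain ⟨M, hM⟩ := hV
  have h1 : ∀ n : ℕ, |V (n * T) - V 0 - n * c| ≤ n * δ := by
    intro n
    induction n with
    | zero => simp
    | succ n ih =>
      have e : ((n + 1 : ℕ) : ℝ) * T = n * T + T := by push_cast; ring
      have e2 : V (n * T + T) - V 0 - ((n + 1 : ℕ) : ℝ) * c =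
          (V (n * T + T) - V (n * T) - c) + (V (n * T) - V 0 - n * c) := by push_cast; ring
      rw [e, e2]
      refine (abs_add_le _ _).trans ?_
      have := h (n * T)
      push_cast
      linarith
  by_contra hcon
  push Not at hcon
  obtain ⟨n, hn⟩ := exists_nat_gt ((M + |V 0|) / (|b * T - c| - δ))
  rw [div_lt_iff₀ (by linarith)] at hn
  have h2 := h1 n
  have h3 := hM (n * T)
  have e : (n : ℝ) * (b * T - c) = (V (n * T) - V 0 - n * c) - (V (n * T) - b * (n * T)) + V 0 := by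
    ring
  have h4 : |(n : ℝ) * (b * T - c)| ≤ n * δ + M + |V 0| := by
    rw [e]
    refine (abs_add_le _ _).trans ?_
    have := abs_sub (V (n * T) - V 0 - n * c) (V (n * T) - b * (n * T))
    linarith
  rw [abs_mul, Nat.abs_cast] at h4
  nlinarith

theorem SlopeIs.congr {V W : ℝ → ℝ} {a b : ℝ} (hV : SlopeIs V a) (h : ∀ t, W t = V t + (b - a) * t) :
    SlopeIs W b := by
  obtain ⟨M, hM⟩ := hV
  refine ⟨M, fun t => ?_⟩
  rw [h]
  have : V t + (b - a) * t - b * t = V t - a * t := by ring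
  rw [this]
  exact hM t

variable {Y N : Type*} [TopologicalSpace Y] [TopologicalSpace N] {φ : ℝ → Y → Y} {f : Y → N}

/-- A circle valued function `Ψ` with its real increments `D` along the orbits. -/
structure Ph (φ : ℝ → Y → Y) (Ψ : Y → T1) (D : Y → ℝ → ℝ) : Prop where
  contP : Continuous Ψ
  contD : Continuous (fun p : Y × ℝ => D p.1 p.2)
  zero : ∀ x, D x 0 = 0
  eq : ∀ x t, Ψ (φ t x) = Ψ x + ((D x t : ℝ) : T1)

theorem coe_int (n : ℤ) : ((n : ℝ) : T1) = 0 := by
  rw [AddCircle.coe_eq_zero_iff]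
  exact ⟨n, by simp⟩

theorem coe_zero_iff (r : ℝ) : ((r : ℝ) : T1) = 0 ↔ ∃ n : ℤ, r = n := by
  rw [AddCircle.coe_eq_zero_iff]
  constructor
  · rintro ⟨n, hn⟩
    exact ⟨n, by rw [← hn]; simp⟩
  · rintro ⟨n, rfl⟩
    exact ⟨n, by simp⟩

/-- a continuous real function with values in `ℤ` is constant -/
theorem int_const {u : ℝ → ℝ} (hu : Continuous u) (h : ∀ t, ((u t : ℝ) : T1) = 0) (s t : ℝ) :
    u s = u t := by
  have hr : ∀ t, ∃ n : ℤ, u t = n := fun t => (coe_zero_iff _).1 (h t)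
  choose n hn using hr
  have hnc : Continuous n := by
    rw [continuous_discrete_rng]
    intro k
    have : n ⁻¹' {k} = u ⁻¹' (Ioo ((k : ℝ) - 1) (k + 1)) := by
      ext t
      simp only [mem_preimage, mem_singleton_iff, mem_Ioo, hn]
      constructor
      · rintro rfl
        constructor <;> linarith
      · rintro ⟨h1, h2⟩
        have h1' : (k - 1 : ℤ) < n t := by exact_mod_cast h1
        have h2' : n t < (k + 1 : ℤ) := by exact_mod_cast h2
        omega
    rw [this]
    exact isOpen_Ioo.preimage hu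
  have : n s = n t := PreconnectedSpace.constant inferInstance hnc
  rw [hn, hn, this]

theorem Ph.cocycle (h : Fl φ f) {Ψ : Y → T1} {D : Y → ℝ → ℝ} (P : Ph φ Ψ D) (x : Y) (s t : ℝ) :
    D x (s + t) = D x s + D (φ s x) t := by
  have hc1 : Continuous (fun t => D x (s + t)) :=
    P.contD.comp (continuous_const.prodMk (continuous_const.add continuous_id))
  have hc2 : Continuous (fun t => D (φ s x) t) :=
    P.contD.comp (continuous_const.prodMk continuous_id)
  have hu : Continuous (fun t => D x (s + t) - D x s - D (φ s x) t) :=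
    (hc1.sub continuous_const).sub hc2
  have := int_const hu (fun t => ?_) t 0
  · simp only [add_zero, P.zero, sub_zero, sub_self] at this
    linarith
  · have h1 := P.eq x (s + t)
    have h2 := P.eq (φ s x) t
    have h3 := P.eq x s
    rw [← h.add, add_comm t s, h1, h3] at h2
    rw [AddCircle.coe_sub, AddCircle.coe_sub]
    have h4 : (((D x (s + t)) : ℝ) : T1) = ((D x s : ℝ) : T1) + ((D (φ s x) t : ℝ) : T1) := by
      have := h2
      rw [add_assoc] at this
      exact add_left_cancel this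
    rw [h4]
    abel

theorem Ph.comb {Ψ₁ Ψ₂ : Y → T1} {D₁ D₂ : Y → ℝ → ℝ} (P₁ : Ph φ Ψ₁ D₁) (P₂ : Ph φ Ψ₂ D₂)
    (a b : ℤ) : Ph φ (fun x => a • Ψ₁ x + b • Ψ₂ x) (fun x t => a * D₁ x t + b * D₂ x t) where
  contP := (P₁.contP.const_smul a).add (P₂.contP.const_smul b)
  contD := (continuous_const.mul P₁.contD).add (continuous_const.mul P₂.contD)
  zero x := by rw [P₁.zero, P₂.zero]; simp
  eq x t := by
    rw [P₁.eq, P₂.eq, AddCircle.coe_add]
    have e : ∀ (c : ℤ) (r : ℝ), (((c : ℝ) * r : ℝ) : T1) = c • ((r : ℝ) : T1) := by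
      intro c r
      rw [← zsmul_eq_mul, AddCircle.coe_zsmul]
    rw [e, e, smul_add, smul_add]
    abel

theorem Ph.int_period {Ψ : Y → T1} {D : Y → ℝ → ℝ} (P : Ph φ Ψ D) {x : Y} {T : ℝ}
    (hx : φ T x = x) : ∃ n : ℤ, D x T = n := by
  have := P.eq x T
  rw [hx] at this
  rw [← coe_zero_iff]
  have h2 : Ψ x + 0 = Ψ x + ((D x T : ℝ) : T1) := by rw [add_zero]; exact this
  exact (add_left_cancel h2).symm

theorem Ph.contt {Ψ : Y → T1} {D : Y → ℝ → ℝ} (P : Ph φ Ψ D) (x : Y) :
    Continuous (fun t => D x t) := P.contD.comp (continuous_const.prodMk continuous_id)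

theorem Ph.slope (h : Fl φ f) {Ψ : Y → T1} {D : Y → ℝ → ℝ} (P : Ph φ Ψ D) {x : Y} {T : ℝ}
    (hT : 0 < T) (hx : φ T x = x) : SlopeIs (D x) (D x T / T) := by
  refine SlopeIs.of_periodic (P.contt x) hT (fun t => ?_)
  rw [add_comm t T, P.cocycle h, hx, add_comm]

theorem Ph.per (h : Fl φ f) {Ψ : Y → T1} {D : Y → ℝ → ℝ} (P : Ph φ Ψ D) {x : Y} {T : ℝ}
    (hT : 0 < T) (hx : φ T x = x) (hs : SlopeIs (D x) 0) (t : ℝ) : D x (t + T) = D x t := by
  have h1 := (P.slope h hT hx).unique hs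
  have h2 : D x T = 0 := by
    rcases div_eq_zero_iff.1 h1 with h3 | h3
    · exact h3
    · exact absurd h3 hT.ne'
  rw [add_comm t T, P.cocycle h, hx, h2, zero_add]

/-- A retraction of the circle to the real line near zero. -/
noncomputable def rho : T1 → ℝ :=
  Function.Periodic.lift (f := fun r : ℝ => Real.arcsin (Real.sin (2 * Real.pi * r)) / (2 * Real.pi))
    (c := (1 : ℝ)) (by
      intro r
      change Real.arcsin (Real.sin (2 * Real.pi * (r + 1))) / (2 * Real.pi) = _
      rw [mul_add, mul_one, Real.sin_add_two_pi])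

theorem rho_coe (r : ℝ) : rho (r : T1) = Real.arcsin (Real.sin (2 * Real.pi * r)) / (2 * Real.pi) :=
  rfl

theorem rho_cont : Continuous rho := by
  have h1 : Continuous (fun r : ℝ => Real.arcsin (Real.sin (2 * Real.pi * r)) / (2 * Real.pi)) := by
    fun_prop
  have h2 : IsQuotientMap (fun r : ℝ => (r : T1)) := QuotientAddGroup.isQuotientMap_mk _
  rw [h2.continuous_iff]
  exact h1

theorem rho_small {r : ℝ} (hr : |r| ≤ 1 / 4) : rho (r : T1) = r := by
  rw [rho_coe, Real.arcsin_sin]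
  · field_simp
  · rw [abs_le] at hr
    nlinarith [Real.pi_pos, hr.1]
  · rw [abs_le] at hr
    nlinarith [Real.pi_pos, hr.2]

theorem rho_zero : rho 0 = 0 := by
  have := rho_small (r := 0) (by norm_num)
  simpa using this

/-- the open arc of radius `1/4` -/
def arc : Set T1 := (fun r : ℝ => (r : T1)) '' Ioo (-(1 / 4)) (1 / 4)

theorem arc_open : IsOpen arc :=
  QuotientAddGroup.isOpenMap_coe _ isOpen_Ioo

theorem arc_rho {θ : T1} (h : θ ∈ arc) : ((rho θ : ℝ) : T1) = θ := by
  obtain ⟨r, hr, rfl⟩ := h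
  change ((rho (r : T1) : ℝ) : T1) = (r : T1)
  rw [rho_small (abs_le.2 ⟨hr.1.le, hr.2.le⟩)]

theorem arc_zero : (0 : T1) ∈ arc := ⟨0, by norm_num, by simp⟩

/-- the real lift of the phase near a compact orbit of slope zero -/
theorem Ph.exists_psi [T2Space Y] [NormalSpace Y] [T1Space N] (h : Fl φ f) {Ψ : Y → T1}
    {D : Y → ℝ → ℝ} (P : Ph φ Ψ D) {x₀ : Y} {T : ℝ} (hT : 0 < T) (hx : φ T x₀ = x₀)
    (hs : SlopeIs (D x₀) 0) : ∃ (ψ : Y → ℝ) (O : Set Y), Continuous ψ ∧ IsOpen O ∧
      f ⁻¹' {f x₀} ⊆ O ∧ (∀ z ∈ O, Ψ z = Ψ x₀ + ((ψ z : ℝ) : T1)) ∧ ∀ s, ψ (φ s x₀) = D x₀ s := by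
  classical
  have hcomp : IsCompact (f ⁻¹' {f x₀}) := h.compact_of_periodic hT.ne' hx
  -- the function on the orbit
  have hwd : ∀ s t, φ s x₀ = φ t x₀ → D x₀ s = D x₀ t := by
    intro s t hst
    have e1 : D x₀ t = D x₀ s + D (φ s x₀) (t - s) := by
      rw [← P.cocycle h, add_sub_cancel]
    have e2 : φ (t - s) (φ s x₀) = φ s x₀ := by
      rw [← h.add, sub_add_cancel, hst]
    rcases eq_or_ne (t - s) 0 with h0 | h0
    · rw [e1, h0, P.zero, add_zero]
    · -- the slope of the point `φ s x₀` is zero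
      have hsl : SlopeIs (D (φ s x₀)) 0 := by
        obtain ⟨M, hM⟩ := hs
        refine ⟨M + M, fun r => ?_⟩
        have e3 := P.cocycle h x₀ s r
        have h1 := hM (s + r)
        have h2 := hM s
        have : D (φ s x₀) r - 0 * r = (D x₀ (s + r) - 0 * (s + r)) - (D x₀ s - 0 * s) := by
          rw [e3]; ring
        rw [this]
        exact (abs_sub _ _).trans (add_le_add h1 h2)
      have hz : D (φ s x₀) (t - s) = 0 := by
        rcases lt_or_gt_of_ne h0 with h1 | h1
        · have e4 : φ (-(t - s)) (φ s x₀) = φ s x₀ := by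
            conv_lhs => rw [← e2]
            rw [h.inv]
          have := P.per h (T := -(t - s)) (by linarith) e4 hsl (t - s)
          rw [add_neg_cancel, P.zero] at this
          exact this.symm
        · have := P.per h (T := t - s) (by linarith) e2 hsl 0
          rw [zero_add, P.zero] at this
          exact this
      rw [e1, hz, add_zero]
  have hex : ∀ z : f ⁻¹' {f x₀}, ∃ s, φ s x₀ = z.1 := fun z => (h.fibre x₀ z.1).1 z.2.symm
  have hex2 := hex
  choose g hg using hex2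
  let ψ₀ : f ⁻¹' {f x₀} → ℝ := fun z => D x₀ (g z)
  have hψ₀ : ∀ s, ψ₀ ⟨φ s x₀, h.f_flow _ _⟩ = D x₀ s := fun s => hwd _ _ (hg _)
  have hψ₀c : Continuous ψ₀ := by
    -- the orbit map from the interval is a quotient map
    let q : Icc (0 : ℝ) T → f ⁻¹' {f x₀} := fun s => ⟨φ s x₀, h.f_flow _ _⟩
    have hqc : Continuous q := by
      apply Continuous.subtype_mk
      exact (h.orbit_cont x₀).comp continuous_subtype_val
    have hqs : Function.Surjective q := by
      intro z
      obtain ⟨s, hs'⟩ := hex z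
      have hper : Function.Periodic (fun t => φ t x₀) T := by
        intro t
        change φ (t + T) x₀ = φ t x₀
        rw [h.add, hx]
      obtain ⟨y, hy, hyt⟩ := hper.exists_mem_Ico₀ hT s
      refine ⟨⟨y, hy.1, hy.2.le⟩, Subtype.ext ?_⟩
      change φ y x₀ = z.1
      rw [← hs']
      exact hyt.symm
    have hq : IsQuotientMap q := hqc.isClosedMap.isQuotientMap hqc hqs
    rw [hq.continuous_iff]
    have : ψ₀ ∘ q = fun s : Icc (0 : ℝ) T => D x₀ s := by
      funext s
      exact hψ₀ s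
    rw [this]
    exact (P.contt x₀).comp continuous_subtype_val
  obtain ⟨ψ₁, hψ₁⟩ := ContinuousMap.exists_restrict_eq (hcomp.isClosed) ⟨ψ₀, hψ₀c⟩
  have hψ₁' : ∀ s, ψ₁ (φ s x₀) = D x₀ s := by
    intro s
    have := DFunLike.congr_fun hψ₁ ⟨φ s x₀, h.f_flow _ _⟩
    rw [← hψ₀ s]
    exact this
  let E : Y → T1 := fun z => Ψ z - Ψ x₀ - ((ψ₁ z : ℝ) : T1)
  have hEc : Continuous E := (P.contP.sub continuous_const).sub
    ((AddCircle.continuous_mk' 1).comp ψ₁.continuous)
  have hE0 : ∀ s, E (φ s x₀) = 0 := by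
    intro s
    simp only [E]
    rw [hψ₁', P.eq]
    abel
  refine ⟨fun z => ψ₁ z + rho (E z), E ⁻¹' arc, ?_, arc_open.preimage hEc, ?_, ?_, ?_⟩
  · exact ψ₁.continuous.add (rho_cont.comp hEc)
  · rw [h.fibre_eq]
    rintro _ ⟨s, rfl⟩
    change E (φ s x₀) ∈ arc
    rw [hE0]
    exact arc_zero
  · intro z hz
    rw [AddCircle.coe_add, arc_rho hz]
    simp only [E]
    abel
  · intro s
    change ψ₁ (φ s x₀) + rho (E (φ s x₀)) = _
    rw [hE0, rho_zero, add_zero, hψ₁']

end Pool.Agent.V11201.FL
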